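import Mathlib
import Pool.Agent.Y114.MU.Defs

/-!
# Orthogonal Galois representations: places of good reduction and of maximally unipotent monodromy
-/

set_option autoImplicit false

namespace Pool.Agent.Y115.EW

open NumberField IsDedekindDomain Polynomial Module Pool.Agent.Y114.GF Pool.Agent.Y114.MU

/-- The power with exponent `w` of the `ℓ`-adic cyclotomic character. -/
noncomputable def cyc (F : Type) [Field F] (ℓ : ℕ) [Fact ℓ.Prime] (w : ℤ) :
    Gal(AlgebraicClosure F/F) →* ℚ_[ℓ] where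
  toFun g := (((cyclotomicCharacter (AlgebraicClosure F) ℓ g) ^ w : ℤ_[ℓ]ˣ) : ℤ_[ℓ])
  map_one' := by
    have h1 : ((1 : Gal(AlgebraicClosure F/F)) : AlgebraicClosure F ≃+* AlgebraicClosure F) = 1 :=
      rfl
    rw [h1, map_one, one_zpow, Units.val_one, PadicInt.coe_one]
  map_mul' g h := by
    have h1 : ((g * h : Gal(AlgebraicClosure F/F)) : AlgebraicClosure F ≃+* AlgebraicClosure F) =
      (g : AlgebraicClosure F ≃+* AlgebraicClosure F) *
        (h : AlgebraicClosure F ≃+* AlgebraicClosure F) := rfl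
    rw [h1, map_mul, mul_zpow, Units.val_mul, PadicInt.coe_mul]

section rep

/-- The space `ℚ_ℓ ^ n`. -/
abbrev Vec (n ℓ : ℕ) [Fact ℓ.Prime] : Type := Fin n → ℚ_[ℓ]

/-- Representations of the absolute Galois group of `F` on `ℚ_ℓ ^ n`. -/
abbrev Rep (F : Type) [Field F] (n ℓ : ℕ) [Fact ℓ.Prime] : Type :=
  Representation ℚ_[ℓ] Gal(AlgebraicClosure F/F) (Vec n ℓ)

/-- Bilinear forms on `ℚ_ℓ ^ n`. -/
abbrev BForm (n ℓ : ℕ) [Fact ℓ.Prime] : Type := Vec n ℓ →ₗ[ℚ_[ℓ]] Vec n ℓ →ₗ[ℚ_[ℓ]] ℚ_[ℓ]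

variable {F : Type} [Field F] {n ℓ : ℕ} [Fact ℓ.Prime]

/-- The matrices of the `ρ g` depend continuously on `g`. -/
def IsCont (ρ : Rep F n ℓ) : Prop := Continuous fun g => LinearMap.toMatrix' (ρ g)

/-- The form is symmetric. -/
def IsSym (φ : BForm n ℓ) : Prop := ∀ x y, φ x y = φ y x

/-- The form is nondegenerate. -/
def IsNondeg (φ : BForm n ℓ) : Prop := ∀ x, (∀ y, φ y x = 0) → x = 0

/-- The elements `ρ g` are similitudes of `φ` with multiplier `χ(g) ^ m`, `χ` the cyclotomic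
character. -/
def HasMultiplier (ρ : Rep F n ℓ) (φ : BForm n ℓ) (m : ℤ) : Prop :=
  ∀ g x y, φ (ρ g x) (ρ g y) = cyc F ℓ m g * φ x y

/-- `(V, φ)` has the properties of the `ℓ`-adic realization of a polarized motive of even weight
`2 w`: the representation `ρ` on `V = ℚ_ℓ ^ n` is continuous, `φ` is a nondegenerate symmetric
bilinear form, and `φ (ρ g x) (ρ g y) = χ(g) ^ (- 2 w) φ x y` with the cyclotomic character `χ`. -/
structure IsOrthogonal (ρ : Rep F n ℓ) (φ : BForm n ℓ) (w : ℤ) : Prop where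
  continuous : IsCont ρ
  symmetric : IsSym φ
  nondegenerate : IsNondeg φ
  similitude : HasMultiplier ρ φ (-(2 * w))

/-- `f` is a Tate class in the dual space of `V ^ {⊗ m}` (with the twist given by the weight): for
all elements `g` of a subgroup of finite index, `f (ρ g v 1, …, ρ g v m) = χ(g) ^ (- m w) f v`. -/
def TateForm (ρ : Rep F n ℓ) (w : ℤ) {m : ℕ}
    (f : MultilinearMap ℚ_[ℓ] (fun _ : Fin m => Vec n ℓ) ℚ_[ℓ]) : Prop :=
  ∃ Δ : Subgroup Gal(AlgebraicClosure F/F), Δ.FiniteIndex ∧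
    ∀ g ∈ Δ, ∀ v, f (fun i => ρ g (v i)) = cyc F ℓ (-(m * w)) g * f v

/-- The representation is irreducible for all subgroups of finite index. -/
def StronglyIrreducible (ρ : Rep F n ℓ) : Prop :=
  ∀ Δ : Subgroup Gal(AlgebraicClosure F/F), Δ.FiniteIndex →
    ∀ U : Submodule ℚ_[ℓ] (Vec n ℓ), (∀ g ∈ Δ, ∀ x ∈ U, ρ g x ∈ U) → U = ⊥ ∨ U = ⊤

/-- `g` is a similitude of `φ` with multiplier `ν ^ 2` and determinant `ν ^ n`. -/
def IsSimilitude (φ : BForm n ℓ) (ν : ℚ_[ℓ]) (g : End ℚ_[ℓ] (Vec n ℓ)) : Prop :=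
  (∀ x y, φ (g x) (g y) = ν ^ 2 * φ x y) ∧ LinearMap.det g = ν ^ n

/-- All Tate classes are semi-invariants of the group of similitudes of `φ`. -/
def TateFormsSemiInvariant (ρ : Rep F n ℓ) (φ : BForm n ℓ) (w : ℤ) : Prop :=
  ∀ (m : ℕ) (f : MultilinearMap ℚ_[ℓ] (fun _ : Fin m => Vec n ℓ) ℚ_[ℓ]), TateForm ρ w f →
    ∀ g ν, IsSimilitude φ ν g → ∀ v, f (fun i => g (v i)) = ν ^ m * f v

variable [NumberField F] (ρ : Rep F n ℓ)

/-- Good reduction at `v`: the representation is unramified at `v`, and geometric Frobenius elements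
at `v` have the characteristic polynomial `P` in `ℚ[X]`, which is pure of weight `2 w`. -/
structure GoodPl (w : ℤ) (v : HeightOneSpectrum (𝓞 F)) (P : ℚ[X]) : Prop where
  unramified : ∀ Q, PrimeOver Q v → ∀ g, InInertiaAt Q g → ρ g = 1
  frobenius : ∀ Q, PrimeOver Q v → ∀ g, IsFrobAt Q (q v) g →
    (ρ g⁻¹).charpoly = P.map (algebraMap ℚ ℚ_[ℓ])
  pure : ∀ a ∈ P.aroots ℂ, ‖a‖ ^ 2 = (q v : ℝ) ^ (2 * w)

/-- `g` acts unipotently. -/
def IsUnip (g : Gal(AlgebraicClosure F/F)) : Prop := IsNilpotent (ρ g - 1)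

/-- If `g` acts unipotently, it has only one Jordan block. -/
def OneBlock (g : Gal(AlgebraicClosure F/F)) : Prop := (ρ g - 1) ^ (n - 1) ≠ 0

/-- Maximally unipotent monodromy at `v`: for all `Q` above `v` the inertia group at `Q` acts
unipotently, and it contains an element `τ` with only one Jordan block, such that `σ τ σ⁻¹` acts as
`τ ^ q` for all (arithmetic) Frobenius elements `σ` at `Q`, where `q` is the order of the residue
field. -/
def MumPl (v : HeightOneSpectrum (𝓞 F)) : Prop :=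
  ∀ Q, PrimeOver Q v → (∀ g, InInertiaAt Q g → IsUnip ρ g) ∧
    ∃ τ, InInertiaAt Q τ ∧ OneBlock ρ τ ∧
      ∀ σ, IsFrobAt Q (q v) σ → ρ (σ * τ * σ⁻¹) = ρ (τ ^ q v)

end rep

/-- There are `r` multiplicatively independent numbers among the complex roots of `P`. -/
def IndepRoots (r : ℕ) (P : ℚ[X]) : Prop :=
  ∃ z : Fin r → ℂ, (∀ j, aeval (z j) P = 0) ∧ ∀ e : Fin r → ℤ, ∏ j, z j ^ e j = 1 → e = 0

end Pool.Agent.Y115.EW
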