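import Mathlib
import Pool.Agent.Y114.MU.Irr
import Pool.Agent.Y115.EW.Defs

/-!
# Irreducibility of orthogonal representations with maximally unipotent monodromy
-/

set_option autoImplicit false
set_option linter.unusedSectionVars false
set_option linter.unusedVariables false

namespace Pool.Agent.Y115.EW

open NumberField IsDedekindDomain Polynomial Module Pool.Agent.Y114.TF Pool.Agent.Y114.GF
open Pool.Agent.Y114.MU
open Pool.Agent.W569.FM Pool.Agent.W571.FM Pool.Agent.Y115.R Pool.Agent.Y115.T Pool.Agent.Y115.Chi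

section bsq

variable {k : Type*} [Field k] [CharZero k] {V : Type*} [AddCommGroup V] [Module k V]
  [FiniteDimensional k V] {N : End k V} {r : ℕ}

/-- The eigenvalue of Frobenius on the kernel of the monodromy operator. -/
theorem b_sq' (h : Reg N r) {F : End k V} {q : k} (hF : F * N = q • (N * F))
    (ω : V →ₗ[k] V →ₗ[k] k) (hsy : ∀ x y, ω x y = ω y x) (hnd : ∀ u, (∀ v, ω v u = 0) → u = 0)
    (hN : N ∈ SpL ω) {c : k} (hsim : ∀ u v, ω (F u) (F v) = c * ω u v) {w : V} (hw0 : w ≠ 0)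
    (hw : N w = 0) {b : k} (hb : F w = b • w) : b ^ 2 = q ^ r * c := by
  obtain ⟨v, hv⟩ := h.exists_vec
  obtain ⟨a, ha⟩ := h.exists_coeff hv (F v)
  have hFp : ∀ m, F * N ^ m = q ^ m • (N ^ m * F) := by
    intro m
    induction m with
    | zero => simp
    | succ m ih =>
      rw [pow_succ, ← mul_assoc, ih, smul_mul_assoc, mul_assoc, hF, mul_smul_comm, smul_smul,
        ← pow_succ, mul_assoc]
  obtain ⟨d, hd⟩ := h.ker_one hv hw
  have hd0 : d ≠ 0 := by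
    rintro rfl
    rw [zero_smul] at hd
    exact hw0 hd
  set w0 := (N ^ r) v with hw0'
  have hFw0 : F w0 = b • w0 := by
    have h1 : F (d • w0) = b • (d • w0) := by rw [← hd, hb]
    rw [map_smul, smul_comm] at h1
    exact smul_right_injective V hd0 h1
  have hNFv : (N ^ r) (F v) = a 0 • w0 := by
    rw [ha, map_sum, Finset.sum_range_succ', Finset.sum_eq_zero, zero_add, map_smul, pow_zero,
      Module.End.one_apply]
    intro i _
    rw [map_smul, ← Module.End.mul_apply, ← pow_add, h.pow_zero_of_lt (show r < r + (i + 1) by omega),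
      LinearMap.zero_apply, smul_zero]
  have hba : b = q ^ r * a 0 := by
    have h1 : F w0 = q ^ r • (N ^ r) (F v) := by
      have h2 := congrArg (fun T : End k V => T v) (hFp r)
      exact h2
    rw [hFw0, hNFv, smul_smul] at h1
    have h2 : (b - q ^ r * a 0) • w0 = 0 := by rw [sub_smul, h1, sub_self]
    exact sub_eq_zero.1 ((smul_eq_zero.1 h2).resolve_right hv)
  have hadj : ∀ (m : ℕ) (u x : V), ω u ((N ^ m) x) = (-1) ^ m * ω ((N ^ m) u) x := by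
    intro m
    induction m with
    | zero => intro u x; simp
    | succ m ih =>
      intro u x
      have e1 : (N ^ (m + 1)) x = (N ^ m) (N x) := by
        rw [pow_succ, Module.End.mul_apply]
      have e2 : (N ^ (m + 1)) u = N ((N ^ m) u) := by
        rw [pow_succ', Module.End.mul_apply]
      rw [e1, e2, ih, pow_succ]
      have h1 := hN ((N ^ m) u) x
      linear_combination (-1) ^ m * h1
  have hzero : ∀ i, ω w0 ((N ^ (i + 1)) v) = 0 := by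
    intro i
    rw [hadj, hw0', ← Module.End.mul_apply, ← pow_add, h.pow_zero_of_lt (show r < i + 1 + r by omega),
      LinearMap.zero_apply, map_zero, LinearMap.zero_apply, mul_zero]
  have hexp : ∀ x, (∃ c : ℕ → k, x = ∑ i ∈ Finset.range (r + 1), c i • (N ^ i) v ∧
      ω w0 x = c 0 * ω w0 v) := by
    intro x
    obtain ⟨c, hc⟩ := h.exists_coeff hv x
    refine ⟨c, hc, ?_⟩
    conv_lhs => rw [hc]
    rw [map_sum, Finset.sum_range_succ', Finset.sum_eq_zero, zero_add, map_smul, pow_zero,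
      Module.End.one_apply, smul_eq_mul]
    intro i _
    rw [map_smul, hzero, smul_zero]
  have hne : ω w0 v ≠ 0 := by
    intro h0
    apply hv
    refine hnd _ fun x => ?_
    obtain ⟨c, -, hc⟩ := hexp x
    rw [hsy x w0, hc, h0, mul_zero]
  have h1 : ω w0 (F v) = a 0 * ω w0 v := by
    rw [ha, map_sum, Finset.sum_range_succ', Finset.sum_eq_zero, zero_add, map_smul, pow_zero,
      Module.End.one_apply, smul_eq_mul]
    intro i _
    rw [map_smul, hzero, smul_zero]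
  have h2 := hsim w0 v
  rw [hFw0, map_smul, LinearMap.smul_apply, smul_eq_mul, h1] at h2
  have h3 : (b * a 0 - c) * ω w0 v = 0 := by linear_combination h2
  have h4 := (mul_eq_zero.1 h3).resolve_right hne
  linear_combination q ^ r * h4 + (b - 0) * hba

end bsq

section irr

variable {F : Type} [Field F] [NumberField F] {n : ℕ} {ℓ : ℕ} [hℓ : Fact ℓ.Prime]

theorem coe_zpow_unit (u : ℤ_[ℓ]ˣ) (a : ℤ) :
    (((u ^ a : ℤ_[ℓ]ˣ) : ℤ_[ℓ]) : ℚ_[ℓ]) = ((u : ℤ_[ℓ]) : ℚ_[ℓ]) ^ a := by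
  have h1 := map_zpow (Units.map (PadicInt.Coe.ringHom (p := ℓ)).toMonoidHom) u a
  have h2 := congrArg (fun z : ℚ_[ℓ]ˣ => (z : ℚ_[ℓ])) h1
  rw [Units.val_zpow_eq_zpow_val] at h2
  exact h2

theorem char_inertia' (w : ℤ) {v : HeightOneSpectrum (𝓞 F)}
    {Q : Ideal (OO F)} (hQ : Q.IsPrime) (hQv : cm Q = v.asIdeal) (hℓv : ¬ Above v ℓ) {τ φ : GF F}
    (hτ : InInertia Q τ) (hφ : FrobAt (Ideal.absNorm v.asIdeal) Q φ) :
    cyc F ℓ (-(2 * w)) φ * (Ideal.absNorm v.asIdeal : ℚ_[ℓ]) ^ (2 * w) = 1 ∧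
      ∀ a : ℤ, cyc F ℓ a τ = 1 := by
  obtain ⟨h1, h2⟩ := chi_inertia hQ hQv hℓv hτ hφ
  have h5 : ((cyclotomicCharacter (AlgebraicClosure F) ℓ φ : ℤ_[ℓ]) : ℚ_[ℓ]) =
      (Ideal.absNorm v.asIdeal : ℚ_[ℓ]) := by
    have h6 := congrArg (fun z : ℤ_[ℓ] => (z : ℚ_[ℓ])) h1
    simp only [PadicInt.coe_natCast] at h6
    exact h6
  have h6 : cyclotomicCharacter (AlgebraicClosure F) ℓ τ = 1 := h2
  refine ⟨?_, fun a => ?_⟩
  · have h7 : cyc F ℓ (-(2 * w)) φ =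
        (((cyclotomicCharacter (AlgebraicClosure F) ℓ φ : ℤ_[ℓ]ˣ) : ℤ_[ℓ]) : ℚ_[ℓ]) ^
          (-(2 * w)) := coe_zpow_unit _ _
    have h8 : (Ideal.absNorm v.asIdeal : ℚ_[ℓ]) ≠ 0 := by
      rw [Nat.cast_ne_zero, Ne, Ideal.absNorm_eq_zero_iff]
      exact v.ne_bot
    rw [h7, h5, ← zpow_add₀ h8, neg_add_cancel, zpow_zero]
  · change (((cyclotomicCharacter (AlgebraicClosure F) ℓ τ) ^ a : ℤ_[ℓ]ˣ) : ℤ_[ℓ]) = (1 : ℚ_[ℓ])
    rw [h6, one_zpow, Units.val_one, PadicInt.coe_one]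

theorem irreducible (ρ : Representation ℚ_[ℓ] Gal(AlgebraicClosure F/F) (Fin n → ℚ_[ℓ]))
    {ω : (Fin n → ℚ_[ℓ]) →ₗ[ℚ_[ℓ]] (Fin n → ℚ_[ℓ]) →ₗ[ℚ_[ℓ]] ℚ_[ℓ]} {w : ℤ}
    (hR : IsOrthogonal ρ ω w) (T : Set ℕ) (hT3 : 3 ≤ T.encard)
    (hT : ∀ p ∈ T, p.Prime ∧ p ≠ ℓ ∧ UnramifiedIn F p)
    (hgood : ∀ p ∈ T, ∀ v, Above v p → ∃ P, GoodPl ρ w v P) {p₁ : ℕ}
    (hp₁ : p₁.Prime ∧ p₁ ≠ ℓ ∧ UnramifiedIn F p₁) {v₁ : HeightOneSpectrum (𝓞 F)}
    (hv₁ : Above v₁ p₁) (hmum : MumPl ρ v₁)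
    (hall : ∀ v, Above v p₁ → MumPl ρ v ∨ ∃ P, GoodPl ρ w v P) (hn : 0 < n)
    (W : Submodule ℚ_[ℓ] (Fin n → ℚ_[ℓ])) (hW : ∀ g, ∀ x ∈ W, ρ g x ∈ W) :
    W = ⊥ ∨ W = ⊤ := by
  classical
  by_cases hW0 : finrank ℚ_[ℓ] W = 0
  · exact Or.inl (Submodule.finrank_eq_zero.1 hW0)
  obtain ⟨s, hs⟩ := Nat.exists_eq_succ_of_ne_zero hW0
  rw [Nat.succ_eq_add_one] at hs
  obtain ⟨r, hr⟩ := Nat.exists_eq_succ_of_ne_zero hn.ne'
  rw [Nat.succ_eq_add_one] at hr
  have hfr : finrank ℚ_[ℓ] (Fin n → ℚ_[ℓ]) = r + 1 := by simp [hr]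
  have hsr : s ≤ r := by
    have := Submodule.finrank_le W
    omega
  obtain ⟨j, hj⟩ := exists_j ℓ ℚ_[ℓ] ℚ (algebraMap ℚ ℚ_[ℓ]) (algebraMap ℚ ℂ)
  -- the character
  have hW' : ∀ g, W ≤ W.comap (act (matRep (ρ)) g) := fun g x hx => by
    rw [Submodule.mem_comap, act_matRep]
    exact hW g x hx
  have hW'' : ∀ g, W ≤ W.comap (ρ g) := fun g x hx => hW g x hx
  set ψ : GF F →* ℚ_[ℓ]ˣ := dt (matRep (ρ)) W hW' with hψ
  have hψc : Continuous ψ :=
    continuous_dt ℓ (matRep (ρ)) (continuous_matRep _ (hR.continuous)) W hW'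
  have hψdet : ∀ g, (ψ g : ℚ_[ℓ]) = LinearMap.det ((ρ g).restrict (hW'' g)) := by
    intro g
    rw [hψ, coe_dt]
    congr 1
    refine LinearMap.ext fun x => Subtype.ext ?_
    exact act_matRep (ρ) g x
  -- Frobenius elements
  have hfr₀ : ∀ v : HeightOneSpectrum (𝓞 F), ∃ (Q : Ideal (OO F)) (σ : GF F), Q.IsMaximal ∧
      cm Q = v.asIdeal ∧ FrobAt (Ideal.absNorm v.asIdeal) Q σ := fun v => frob_cm v
  choose Q₀ σ₀ hQ₀ hQ₀v hσ₀ using hfr₀
  have hℓv : ∀ p, p.Prime → p ≠ ℓ → ∀ v : HeightOneSpectrum (𝓞 F), Above v p → ¬ Above v ℓ :=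
    fun p hp hne v hv => not_above_of_ne hp hℓ.out hne hv
  have hq0 : ∀ v : HeightOneSpectrum (𝓞 F), (Ideal.absNorm v.asIdeal : ℝ) ≠ 0 := by
    intro v
    rw [Nat.cast_ne_zero, Ne, Ideal.absNorm_eq_zero_iff]
    exact v.ne_bot
  -- inertia at places of good reduction
  have hgoodin : ∀ v : HeightOneSpectrum (𝓞 F), ¬ Above v ℓ → (∃ P, GoodPl ρ w v P) →
      (∀ Q : Ideal (OO F), Q.IsPrime → cm Q = v.asIdeal → ∀ g, InInertia Q g → ψ g = 1) ∧
      IsAlgebraic ℚ (ψ (σ₀ v) : ℚ_[ℓ]) ∧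
      ‖j (ψ (σ₀ v) : ℚ_[ℓ])‖ ^ 2 = (Ideal.absNorm v.asIdeal : ℝ) ^ (-((s + 1 : ℕ) * (2 * w) : ℤ)) := by
    rintro v hv ⟨P', hun', hfr', hpure⟩
    refine ⟨fun Q hQ hQv g hg => ?_, ?_⟩
    · apply Units.ext
      rw [hψdet, Units.val_one]
      have h1 : ρ g = 1 := hun' Q ⟨hQ, hQv⟩ g hg
      have h2 : (ρ g).restrict (hW'' g) = LinearMap.id := by
        refine LinearMap.ext fun x => Subtype.ext ?_
        change ρ g x = x
        rw [h1]
        rfl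
      rw [h2, LinearMap.det_id]
    · have h1 := hfr' (Q₀ v) ⟨(hQ₀ v).isPrime, hQ₀v v⟩ (σ₀ v) (hσ₀ v)
      obtain ⟨h2, h3⟩ := det_good j (ρ (σ₀ v)⁻¹) W (hW'' _) h1 hpure
      rw [← hψdet] at h2 h3
      have h4 : (ψ (σ₀ v)⁻¹ : ℚ_[ℓ]) = (ψ (σ₀ v) : ℚ_[ℓ])⁻¹ := by
        rw [map_inv, Units.val_inv_eq_inv_val]
      rw [h4] at h2 h3
      refine ⟨IsAlgebraic.inv_iff.1 h2, ?_⟩
      rw [map_inv₀, norm_inv, inv_pow, hs] at h3
      rw [zpow_neg, ← inv_eq_iff_eq_inv, h3]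
      unfold q
      rw [← zpow_natCast, ← zpow_mul, mul_comm]
  -- the places of maximally unipotent monodromy
  have hmumin : ∀ v : HeightOneSpectrum (𝓞 F), ¬ Above v ℓ → MumPl ρ v →
      (∀ Q : Ideal (OO F), Q.IsPrime → cm Q = v.asIdeal → ∀ g, InInertia Q g → ψ g = 1) ∧
      ‖j (ψ (σ₀ v) : ℚ_[ℓ])‖ ^ 2 = (Ideal.absNorm v.asIdeal : ℝ) ^
        (((s + 1 : ℕ) * (r - s : ℕ) : ℤ) - ((s + 1 : ℕ) * (2 * w) : ℤ)) := by
    intro v hv hm
    refine ⟨fun Q hQ hQv g hg => ?_, ?_⟩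
    · apply Units.ext
      rw [hψdet, Units.val_one]
      have h1 := (hm Q ⟨hQ, hQv⟩).1 g hg
      have h2 : IsNilpotent ((ρ g).restrict (hW'' g) - 1) := by
        obtain ⟨m, hm⟩ := h1
        have h3 : ∀ x ∈ W, (ρ g - 1) x ∈ W := by
          intro x hx
          rw [LinearMap.sub_apply, Module.End.one_apply]
          exact Submodule.sub_mem _ (hW g x hx) hx
        have h4 : (ρ g).restrict (hW'' g) - 1 = (ρ g - 1).restrict h3 := by
          refine LinearMap.ext fun x => Subtype.ext ?_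
          rfl
        refine ⟨m, ?_⟩
        rw [h4, Module.End.pow_restrict]
        refine LinearMap.ext fun x => Subtype.ext ?_
        change ((ρ g - 1) ^ m) x = 0
        rw [hm]
        rfl
      have h3 : (ρ g).restrict (hW'' g) = 1 + ((ρ g).restrict (hW'' g) - 1) := by abel
      rw [h3]
      exact det_one_add_nilpotent h2
    · obtain ⟨-, τ, hτ, hne, hφ⟩ := hm (Q₀ v) ⟨(hQ₀ v).isPrime, hQ₀v v⟩
      obtain ⟨hχφ, hχτ⟩ := char_inertia' (ℓ := ℓ) w (hQ₀ v).isPrime (hQ₀v v) hv hτ (hσ₀ v)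
      have hrel := hφ (σ₀ v) (hσ₀ v)
      have hrel' : ρ (σ₀ v) * ρ τ = ρ τ ^ q v * ρ (σ₀ v) := by
        rw [← map_pow, ← hrel, ← map_mul, ← map_mul]
        congr 1
        group
      have hnil := (hm (Q₀ v) ⟨(hQ₀ v).isPrime, hQ₀v v⟩).1 τ hτ
      obtain ⟨N, hN, hFN, hNsp, hNW⟩ := exists_monodromy ρ (cyc F ℓ (-(2 * w))) hfr (hχτ _) hnil
        (by unfold OneBlock at hne; rwa [show n - 1 = r by omega] at hne) hrel' ω hR.similitude
      obtain ⟨u, hu⟩ := hN.exists_vec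
      have hNw : N ((N ^ r) u) = 0 := by
        rw [← Module.End.mul_apply, ← pow_succ', hN.pow_dim, LinearMap.zero_apply]
      have hFNx : ∀ x, ρ (σ₀ v) (N x) = (q v : ℚ_[ℓ]) • N (ρ (σ₀ v) x) := fun x =>
        congrArg (fun X : End ℚ_[ℓ] (Fin n → ℚ_[ℓ]) => X x) hFN
      have hqℓ : (q v : ℚ_[ℓ]) ≠ 0 := by
        rw [Nat.cast_ne_zero]
        unfold q
        rw [Ne, Ideal.absNorm_eq_zero_iff]
        exact v.ne_bot
      have h1 : N (ρ (σ₀ v) ((N ^ r) u)) = 0 := by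
        have h2 := hFNx ((N ^ r) u)
        rw [hNw, map_zero] at h2
        exact (smul_eq_zero.1 h2.symm).resolve_left hqℓ
      obtain ⟨b, hb⟩ := hN.ker_one hu h1
      have hdet := hN.sub_det hFN (hNW W (hW τ)) (hW (σ₀ v)) hs hu hNw hb
      have hbsq := b_sq' hN hFN ω hR.symmetric hR.nondegenerate hNsp (hR.similitude (σ₀ v)) hu hNw
        hb
      have hdet' : (ψ (σ₀ v) : ℚ_[ℓ]) * (q v : ℚ_[ℓ]) ^ (s * (s + 1) / 2) = b ^ (s + 1) := by
        rw [hψdet]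
        exact hdet
      -- absolute values
      have hqv : (q v : ℝ) = (Ideal.absNorm v.asIdeal : ℝ) := rfl
      have e1 : ‖j b‖ ^ 2 = (q v : ℝ) ^ ((r : ℤ) - 2 * w) := by
        have h2 := congrArg (fun z => ‖j z‖) hbsq
        have h3 := congrArg (fun z => ‖j z‖) hχφ
        simp only [map_pow, map_mul, map_zpow₀, map_natCast, norm_pow, norm_mul, norm_zpow,
          Complex.norm_natCast, map_one, norm_one] at h2 h3
        rw [h2]
        have h4 : ‖j (cyc F ℓ (-(2 * w)) (σ₀ v))‖ = ((q v : ℝ) ^ (2 * w))⁻¹ :=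
          eq_inv_of_mul_eq_one_left h3
        rw [h4, zpow_sub₀ (by rw [hqv]; exact hq0 v), zpow_natCast]
        rfl
      have e2 : ‖j (ψ (σ₀ v) : ℚ_[ℓ])‖ ^ 2 * (q v : ℝ) ^ (s * (s + 1)) =
          ((q v : ℝ) ^ ((r : ℤ) - 2 * w)) ^ (s + 1) := by
        have h2 := congrArg (fun z => ‖j z‖ ^ 2) hdet'
        simp only [map_pow, map_mul, map_natCast, norm_pow, norm_mul, Complex.norm_natCast] at h2
        have h5 : (‖j b‖ ^ (s + 1)) ^ 2 = (‖j b‖ ^ 2) ^ (s + 1) := by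
          rw [← pow_mul, ← pow_mul, mul_comm]
        rw [h5, e1, mul_pow, ← pow_mul, Nat.div_mul_cancel (Nat.even_mul_succ_self s).two_dvd] at h2
        exact h2
      have hqr : (q v : ℝ) ≠ 0 := by rw [hqv]; exact hq0 v
      rw [← hqv]
      have h6 : ((q v : ℝ) ^ ((r : ℤ) - 2 * w)) ^ (s + 1) =
          (q v : ℝ) ^ ((((s + 1 : ℕ) * (r - s : ℕ) : ℤ) - ((s + 1 : ℕ) * (2 * w) : ℤ))) *
            (q v : ℝ) ^ (s * (s + 1)) := by
        rw [← zpow_natCast, ← zpow_mul, ← zpow_natCast, ← zpow_add₀ hqr]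
        congr 1
        push_cast [Nat.cast_sub hsr]
        ring
      rw [h6] at e2
      exact mul_right_cancel₀ (pow_ne_zero _ hqr) e2
  -- the weights
  have hGF := hgood
  have key := two_weights ψ hψc T hT3 hT hp₁ (fun v => ψ (σ₀ v)) (by
    intro p hp v hv Q hQ hQv
    have hpp : p.Prime ∧ p ≠ ℓ := by
      rcases hp with h | rfl
      · exact ⟨(hT p h).1, (hT p h).2.1⟩
      · exact ⟨hp₁.1, hp₁.2.1⟩
    have hvℓ := hℓv p hpp.1 hpp.2 v hv
    have hin : ∀ Q : Ideal (OO F), Q.IsPrime → cm Q = v.asIdeal → ∀ g, InInertia Q g →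
        ψ g = 1 := by
      rcases hp with h | rfl
      · exact (hgoodin v hvℓ (hGF p h v hv)).1
      · rcases hall v hv with h | h
        · exact (hmumin v hvℓ h).1
        · exact (hgoodin v hvℓ h).1
    exact ⟨hin Q hQ hQv, fun φ hφ => frob_value ψ v hin (hQ₀ v).isPrime hQ (hQ₀v v) hQv (hσ₀ v) hφ⟩)
    (fun p hp v hv => (hgoodin v (hℓv p (hT p hp).1 (hT p hp).2.1 v hv) (hGF p hp v hv)).2.1) j
    (-((s + 1 : ℕ) * (2 * w) : ℤ))
    (fun p hp v hv => (hgoodin v (hℓv p (hT p hp).1 (hT p hp).2.1 v hv) (hGF p hp v hv)).2.2)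
    (fun v => if MumPl ρ v then ((s + 1 : ℕ) * (r - s : ℕ) : ℤ) - ((s + 1 : ℕ) * (2 * w) : ℤ)
      else -((s + 1 : ℕ) * (2 * w) : ℤ)) (by
      intro v hv
      have hvℓ := hℓv p₁ hp₁.1 hp₁.2.1 v hv
      split_ifs with h
      · exact (hmumin v hvℓ h).2
      · exact (hgoodin v hvℓ ((hall v hv).resolve_left h)).2.2) (by
      intro v hv
      split_ifs with h
      · have : (0 : ℤ) ≤ ((s + 1 : ℕ) : ℤ) * ((r - s : ℕ) : ℤ) := by positivity
        linarith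
      · exact le_rfl) v₁ hv₁
  beta_reduce at key
  rw [if_pos hmum] at key
  right
  have h1 : ((s + 1 : ℕ) : ℤ) * ((r - s : ℕ) : ℤ) = 0 := by linarith
  have h2 : (s + 1) * (r - s) = 0 := by exact_mod_cast h1
  have h3 : r - s = 0 := (Nat.mul_eq_zero.1 h2).resolve_left (by omega)
  apply Submodule.eq_top_of_finrank_eq
  rw [hs, hfr]
  omega

end irr

end Pool.Agent.Y115.EW
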