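import Mathlib
import Pool.Agent.Y114.RM.Local
import Pool.Agent.Y809.RM.Rank
import Pool.Agent.Y809.RM.BC
import Pool.Agent.Y86.RM.RD
import Pool.Agent.Y86.RM.Tor
import Pool.Agent.Y960.RM.TH
import Pool.Agent.Y41.RM.LieL

/-!
# The rank of the Lie algebra and Frobenius eigenvalues
-/

set_option autoImplicit false
set_option linter.unusedSectionVars false
set_option linter.unusedVariables false

namespace Pool.Agent.Y115.EW

open Module Polynomial TensorProduct Pool.Agent.TH118.SG Pool.Agent.Y114.MU Pool.Agent.Y114.TF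
  Pool.Agent.H204R3.GP Pool.Agent.Y114.RM

variable {k : Type} [Field k] [CharZero k] [Algebra k ℂ] {V : Type} [AddCommGroup V] [Module k V]
  [FiniteDimensional k V] {Γ : Type} [Group Γ] (ρ : Representation k Γ V)

/-- The operators attached to group elements are in the Lie algebra. -/
theorem op_mem' {L : Submodule k (End k V)} (hL : ∀ X, X ∈ L ↔ X ∈ LT ρ) (γ : Γ)
    (θ : Additive ℂˣ →+ ℂ) (Y : End ℂ (ℂ ⊗[k] V)) (hY : IsOp θ ((ρ γ).baseChange ℂ) Y) :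
    Y ∈ bcS ℂ L := by
  rw [(Pool.Agent.Y809.RM.BC.bc k ℂ V L).1]
  intro π
  rw [hL]
  refine ⟨?_, ?_⟩
  · rintro W ⟨Δ, hΔ, hW⟩
    obtain ⟨M, hM0, -, hM⟩ := Subgroup.exists_pow_mem_of_index_ne_zero hΔ.index_ne_zero γ
    exact (Pool.Agent.Y86.RM.tor Pool.Agent.Y960.RM.res k ℂ V (ρ γ) (ρ γ⁻¹) (rho_mul_inv ρ γ)
      (rho_inv_mul ρ γ) θ Y hY M hM0 π).2 W (fun x hx => by rw [← map_pow]; exact hW _ hM x hx)
  · rintro m φ ⟨Δ, hΔ, hφ⟩
    obtain ⟨M, hM0, -, hM⟩ := Subgroup.exists_pow_mem_of_index_ne_zero hΔ.index_ne_zero γ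
    exact (Pool.Agent.Y86.RM.tor Pool.Agent.Y960.RM.res k ℂ V (ρ γ) (ρ γ⁻¹) (rho_mul_inv ρ γ)
      (rho_inv_mul ρ γ) θ Y hY M hM0 π).1 m φ
      (fun v => by rw [← map_pow, ← map_pow, inv_pow]; exact hφ _ hM v)

/-- **The dimensions of the centralizers are at least the rank of a Frobenius torus.** -/
theorem cen_rank {L : Submodule k (End k V)} (hL : ∀ X, X ∈ L ↔ X ∈ LT ρ) (hLie : IsLie L)
    {r : ℕ} (g₀ : Γ) (z : Fin r → ℂ) (hz : ∀ i, End.HasEigenvalue ((ρ g₀).baseChange ℂ) (z i))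
    (hind : ∀ e : Fin r → ℤ, ∏ i, z i ^ e i = 1 → e = 0) {N : End k V} (hN : N ∈ L) :
    r ≤ finrank k (cen L N) := by
  have hinj₀ : Function.Injective ((ρ g₀).baseChange ℂ) := injective_of_mul
    (g' := (ρ g₀⁻¹).baseChange ℂ) (by rw [← bc_mul, rho_inv_mul, bc_one])
  obtain ⟨θ', θ, p, hp⟩ := Pool.Agent.Y86.RM.rd _ ((ρ g₀).baseChange ℂ) hinj₀ r z hz hind
  obtain ⟨h', hh'⟩ := exists_op ((ρ g₀).baseChange ℂ) (fun z => ext0 θ' z)
  have hex : ∀ j, ∃ t : End ℂ (ℂ ⊗[k] V), IsOp (θ j) ((ρ g₀).baseChange ℂ) t := fun j =>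
    exists_op ((ρ g₀).baseChange ℂ) (fun z => ext0 (θ j) z)
  choose t ht using hex
  have hdet := hp h' t hh' ht
  have hLieC : IsLie (bcS ℂ L) := (Pool.Agent.Y809.RM.BC.bc k ℂ V L).2.1 hLie
  have h1 := Pool.Agent.Y809.RM.rank ℂ _ (bcS ℂ L) hLieC h' (op_mem' ρ hL g₀ θ' h' hh') r p t
    (fun j => op_mem' ρ hL g₀ (θ j) (t j) (ht j)) hdet (N.baseChange ℂ) (mem_bcS hN)
  rwa [(Pool.Agent.Y809.RM.BC.bc k ℂ V L).2.2.2.1 N] at h1

end Pool.Agent.Y115.EW
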