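import Mathlib
import Pool.Agent.Y114.MU.Cube
import Pool.Agent.Y114.MU.Torus

/-!
# Regular nilpotent elements: the cube, for all dimensions
-/

set_option autoImplicit false
set_option linter.unusedSectionVars false
set_option linter.unusedVariables false

namespace Pool.Agent.Y115.EW

open Module Pool.Agent.Y114.AP Pool.Agent.Y114.MU

variable {k : Type*} [Field k] [CharZero k] {V : Type*} [AddCommGroup V] [Module k V]
  [FiniteDimensional k V] {N H f : End k V} {r : ℕ} {v : V}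

section cube

variable (L : Submodule k (End k V)) (hbr : ∀ X ∈ L, ∀ Y ∈ L, X * Y - Y * X ∈ L)
  (hnd : ∀ X ∈ L, (∀ Y ∈ L, LinearMap.trace k V (X * Y) = 0) → X = 0)

/-- The sum which decides whether the cube is orthogonal to the Lie algebra. -/
theorem cube_sum' {r m : ℕ} (hex : 3 * (r + 1) ^ 2 + 3 ≠ 5 * (m * (m + 1))) (hm2 : 2 ≤ m) (hmr : m ≤ r)
    (hne : ∑ j ∈ Finset.range (r + 1), Gc (k := k) r m (j : k) ≠ 0) :
    ∑ j ∈ Finset.range (r + 1), Gc (k := k) r m (j : k) * (xc r ((j : k) + m) - xc r (j : k)) ≠ 0 := by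
  intro h0
  have hstep : ∀ i : k, Fc r (i + 1) * Gc r m (i + 1) = Fc r (i + 1 + m) * Gc r m i := by
    intro i
    have h1 : Gc r (m + 1) i = Fc r (i + 1) * Gc r m (i + 1) := by
      unfold Gc
      rw [Finset.prod_range_succ', mul_comm]
      congr 1
      · push_cast
        ring_nf
      · refine Finset.prod_congr rfl fun j _ => ?_
        push_cast
        ring_nf
    have h2 : Gc r (m + 1) i = Fc r (i + 1 + m) * Gc r m i := by
      unfold Gc
      rw [Finset.prod_range_succ, mul_comm]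
    rw [← h1, h2]
  let P : ℕ → k := fun i => 2 * (Fc r (i : k) * Gc r m (i : k)) * (2 * i - 1 - ((r : k) - m))
  have htel := Finset.sum_range_sub P (r + 1)
  have hP0 : P 0 = 0 := by
    simp only [P, Nat.cast_zero, Fc_zero, zero_mul, mul_zero]
  have hPr : P (r + 1) = 0 := by
    simp only [P, Nat.cast_add, Nat.cast_one, Fc_top, zero_mul, mul_zero]
  rw [hP0, hPr, sub_zero] at htel
  have hdiff : ∀ i ∈ Finset.range (r + 1), P (i + 1) - P i = Gc r m (i : k) *
      (2 * (((r : k) - m) / 2) * (((r : k) - m) / 2 + m + 1) -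
        2 * (1 + 2 * ((m : k) + 1)) * ((i : k) + m / 2 - r / 2) ^ 2) := by
    intro i _
    simp only [P, Nat.cast_add, Nat.cast_one]
    rw [hstep]
    unfold Fc
    ring
  rw [Finset.sum_congr rfl hdiff] at htel
  have h1 : ∀ i ∈ Finset.range (r + 1), Gc r m (i : k) * (xc r ((i : k) + m) - xc r (i : k)) =
      -(3 / 4) * m * (Gc r m (i : k) * (60 * ((i : k) + m / 2 - r / 2) ^ 2 + 5 * m ^ 2 -
        3 * (r + 1) ^ 2 + 7)) := by
    intro i _
    unfold xc
    ring
  rw [Finset.sum_congr rfl h1, ← Finset.mul_sum] at h0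
  have hm0 : -(3 / 4) * (m : k) ≠ 0 := by
    refine mul_ne_zero (by norm_num) (Nat.cast_ne_zero.2 (by omega))
  have h2 := (mul_eq_zero.1 h0).resolve_left hm0
  set S0 := ∑ j ∈ Finset.range (r + 1), Gc (k := k) r m (j : k) with hS0
  set S2 := ∑ j ∈ Finset.range (r + 1), Gc (k := k) r m (j : k) * ((j : k) + m / 2 - r / 2) ^ 2
    with hS2
  have h3 : ∑ i ∈ Finset.range (r + 1), Gc r m (i : k) * (60 * ((i : k) + m / 2 - r / 2) ^ 2 +
      5 * m ^ 2 - 3 * (r + 1) ^ 2 + 7) = 60 * S2 + (5 * m ^ 2 - 3 * (r + 1) ^ 2 + 7) * S0 := by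
    rw [hS0, hS2, Finset.mul_sum, Finset.mul_sum, ← Finset.sum_add_distrib]
    refine Finset.sum_congr rfl fun i _ => ?_
    ring
  have h4 : ∑ i ∈ Finset.range (r + 1), Gc r m (i : k) *
      (2 * (((r : k) - m) / 2) * (((r : k) - m) / 2 + m + 1) -
        2 * (1 + 2 * ((m : k) + 1)) * ((i : k) + m / 2 - r / 2) ^ 2) =
      (2 * (((r : k) - m) / 2) * (((r : k) - m) / 2 + m + 1)) * S0 -
        2 * (1 + 2 * ((m : k) + 1)) * S2 := by
    rw [hS0, hS2, Finset.mul_sum, Finset.mul_sum, ← Finset.sum_sub_distrib]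
    refine Finset.sum_congr rfl fun i _ => ?_
    ring
  rw [h3] at h2
  rw [h4] at htel
  have h5 : (-2 * ((m : k) - 1) * (3 * ((r : k) + 1) ^ 2 + 3 - 5 * m * (m + 1))) * S0 = 0 := by
    linear_combination 30 * htel + (2 * (m : k) + 3) * h2
  have h6 := (mul_eq_zero.1 h5).resolve_right hne
  obtain ⟨a, rfl⟩ := Nat.exists_eq_add_of_le hm2
  have h7 : (-2 * (((2 + a : ℕ) : k) - 1)) ≠ 0 := by
    have h8 : (((2 + a : ℕ) : k) - 1) = ((a + 1 : ℕ) : k) := by push_cast; ring
    rw [h8]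
    exact mul_ne_zero (by norm_num) (Nat.cast_ne_zero.2 (by omega))
  have h8 := (mul_eq_zero.1 h6).resolve_left h7
  have h9 : ((3 * (r + 1) ^ 2 + 3 : ℕ) : k) = ((5 * ((2 + a) * (2 + a + 1)) : ℕ) : k) := by
    push_cast at h8 ⊢
    linear_combination h8
  have h10 : 3 * (r + 1) ^ 2 + 3 = 5 * ((2 + a) * (2 + a + 1)) := by exact_mod_cast h9
  exact hex h10

include hbr hnd in
/-- The cube of the nilpotent element. -/
theorem cube_mem' (T : Triple N H f r v) (hN : N ∈ L) (hH : H ∈ L) (hf : f ∈ L)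
    {m : ℕ} (hm2 : 2 ≤ m) (hmr : m ≤ r)
    (hex : 3 * (r + 1) ^ 2 + 3 ≠ 5 * (m * (m + 1))) (hNm : N ^ m ∈ L) : N ^ 3 ∈ L := by
  rcases dich L hbr hnd T.reg hN hH (ε := 1) (by norm_num) (by rw [T.HN, one_smul]) 3 with h1 | h1
  · exact h1
  exfalso
  have hstep : ∀ Z : End k V, (∀ Y ∈ L, LinearMap.trace k V (Z * Y) = 0) →
      ∀ Y ∈ L, LinearMap.trace k V ((f * Z - Z * f) * Y) = 0 := by
    intro Z hZ Y hY
    rw [tr_comm]
    exact hZ _ (hbr _ hY _ hf)
  have h2 := hstep _ (hstep _ (hstep _ h1))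
  have h3 := h2 _ (hbr _ hNm _ (f_pow_mem L hbr hnd T hN hH hf hmr hNm))
  change LinearMap.trace k V (X3 N f * (N ^ m * f ^ m - f ^ m * N ^ m)) = 0 at h3
  have h4 : LinearMap.trace k V (f ^ m * N ^ m) = ∑ j ∈ Finset.range (r + 1), Gc r m (j : k) := by
    refine T.trace fun j _ => ?_
    rw [Module.End.mul_apply, T.N_pow, T.f_pow]
  have h5 := T.trace_pow_ne hmr
  rw [h4] at h5
  refine cube_sum' hex hm2 hmr h5 ?_
  rw [← h3, mul_sub, map_sub]
  have h6 : LinearMap.trace k V (X3 N f * (N ^ m * f ^ m)) =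
      ∑ j ∈ Finset.range (r + 1), Gc r m (j : k) * xc r ((j : k) + m) := by
    rw [← mul_assoc, LinearMap.trace_mul_comm]
    refine T.trace fun j _ => ?_
    rw [Module.End.mul_apply, Module.End.mul_apply, T.N_pow, T.X3_apply, map_smul, T.f_pow,
      smul_smul, mul_comm]
    push_cast
    rfl
  have h7 : LinearMap.trace k V (X3 N f * (f ^ m * N ^ m)) =
      ∑ j ∈ Finset.range (r + 1), Gc r m (j : k) * xc r (j : k) := by
    refine T.trace fun j _ => ?_
    rw [Module.End.mul_apply, Module.End.mul_apply, T.N_pow, T.f_pow, map_smul, T.X3_apply,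
      smul_smul]
  rw [h6, h7, ← Finset.sum_sub_distrib]
  refine Finset.sum_congr rfl fun j _ => ?_
  ring

end cube

end Pool.Agent.Y115.EW
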