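import Mathlib
import Pool.Agent.Y115.EW.Cube

/-!
# Regular nilpotent elements of orthogonal Lie algebras: the simple root vectors
-/

set_option autoImplicit false
set_option linter.unusedSectionVars false
set_option linter.unusedVariables false

namespace Pool.Agent.Y115.EW

open Module Pool.Agent.Y114.AP Pool.Agent.Y114.MU

variable {k : Type*} [Field k] [CharZero k] {V : Type*} [AddCommGroup V] [Module k V]
  [FiniteDimensional k V] {N H f : End k V} {r : ℕ} {v : V}

theorem ind_sum0 {p : ℕ} {s : ℕ} (hs : s < 2 * p) :
    ∑ c ∈ Finset.range p, ind k (2 * p) c s = 1 := by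
  rw [Finset.sum_eq_single (if s < p then s else 2 * p - 1 - s)]
  · unfold ind
    rw [if_pos]
    by_cases h : s < p
    · rw [if_pos h]
      exact Or.inl rfl
    · rw [if_neg h]
      right
      omega
  · intro c hc hne
    rw [Finset.mem_range] at hc
    unfold ind
    rw [if_neg]
    rintro (h | h)
    · apply hne
      rw [if_pos (by omega), h]
    · apply hne
      rw [if_neg (by omega)]
      omega
  · intro h
    exfalso
    apply h
    rw [Finset.mem_range]
    split_ifs <;> omega

theorem delta_inj0 {p c c' : ℕ} (hc : c < p) (hc' : c' < p)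
    (h : xc (k := k) (2 * p) ((c : k) + 1) - xc (2 * p) (c : k) =
      xc (2 * p) ((c' : k) + 1) - xc (2 * p) (c' : k)) : c = c' := by
  have h1 : ((c : k) - c') * ((c : k) + c' + 1 - 2 * p) = 0 := by
    unfold xc at h
    push_cast at h
    linear_combination (-1 / 45) * h
  rcases mul_eq_zero.1 h1 with h2 | h2
  · have : (c : k) = c' := by linear_combination h2
    exact_mod_cast this
  · have h3 : ((c + c' + 1 : ℕ) : k) = ((2 * p : ℕ) : k) := by
      push_cast
      linear_combination h2
    have h4 : c + c' + 1 = 2 * p := by exact_mod_cast h3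
    omega

variable (L : Submodule k (End k V)) (hbr : ∀ X ∈ L, ∀ Y ∈ L, X * Y - Y * X ∈ L)

include hbr in
theorem Z_mem0 {p : ℕ} (T : Triple N H f (2 * p) v) (hN : N ∈ L) (hX : X3 N f ∈ L) {c : ℕ}
    (hc : c < p) : N * Dg T.reg T.vec (ind k (2 * p) c) ∈ L := by
  classical
  refine split_mem (LinearMap.mulLeft k (X3 N f) - LinearMap.mulRight k (X3 N f)) L
    (fun z hz => hbr _ hX z hz) (Finset.range p)
    (fun c => xc (2 * p) ((c : k) + 1) - xc (2 * p) (c : k))
    (fun i hi j hj hij => delta_inj0 (by rw [Finset.mem_range] at hi; omega)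
      (by rw [Finset.mem_range] at hj; omega) hij)
    (fun c => N * Dg T.reg T.vec (ind k (2 * p) c)) (fun i _ => ?_) ?_ c
    (Finset.mem_range.2 (by omega))
  · change X3 N f * (N * Dg T.reg T.vec (ind k (2 * p) i)) -
      (N * Dg T.reg T.vec (ind k (2 * p) i)) * X3 N f = _
    refine T.reg.ext_le T.vec fun s hs => ?_
    simp only [LinearMap.sub_apply, LinearMap.smul_apply, Module.End.mul_apply, Dg_apply, map_smul,
      T.X3_apply, T.N_apply]
    rw [smul_smul, smul_smul, smul_smul, ← sub_smul]
    congr 1
    by_cases h : s = i ∨ s + i + 1 = 2 * p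
    · have h1 := delta_eq (k := k) (2 * p) i s h
      push_cast
      rw [show ind k (2 * p) i s = 1 from if_pos h]
      rw [← h1]
      ring
    · rw [show ind k (2 * p) i s = 0 from if_neg h]
      ring
  · have h1 : ∑ i ∈ Finset.range p, N * Dg T.reg T.vec (ind k (2 * p) i) = N := by
      refine T.reg.ext_le T.vec fun s hs => ?_
      rw [LinearMap.sum_apply]
      simp only [Module.End.mul_apply, Dg_apply, map_smul]
      rw [← Finset.sum_smul]
      rcases eq_or_lt_of_le hs with h2 | h2
      · rw [T.N_apply, T.reg.pow_zero_of_lt (show 2 * p < s + 1 by omega), LinearMap.zero_apply,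
          smul_zero]
      · rw [ind_sum0 (by omega), one_smul]
    rw [h1]
    exact hN

include hbr in
theorem Z'_mem0 {p : ℕ} (T : Triple N H f (2 * p) v) (hf : f ∈ L) (hX : X3 N f ∈ L) {c : ℕ}
    (hc : c < p) : Dg T.reg T.vec (ind k (2 * p) c) * f ∈ L := by
  classical
  refine split_mem (LinearMap.mulLeft k (X3 N f) - LinearMap.mulRight k (X3 N f)) L
    (fun z hz => hbr _ hX z hz) (Finset.range p)
    (fun c => -(xc (2 * p) ((c : k) + 1) - xc (2 * p) (c : k)))
    (fun i hi j hj hij => delta_inj0 (by rw [Finset.mem_range] at hi; omega)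
      (by rw [Finset.mem_range] at hj; omega) (neg_injective hij))
    (fun c => Dg T.reg T.vec (ind k (2 * p) c) * f) (fun i _ => ?_) ?_ c
    (Finset.mem_range.2 (by omega))
  · change X3 N f * (Dg T.reg T.vec (ind k (2 * p) i) * f) -
      (Dg T.reg T.vec (ind k (2 * p) i) * f) * X3 N f = _
    refine T.reg.ext_le T.vec fun s hs => ?_
    rcases s with _ | s
    · have h1 := T.X3_apply 0
      rw [pow_zero, Module.End.one_apply] at h1 ⊢
      simp only [LinearMap.sub_apply, LinearMap.smul_apply, Module.End.mul_apply, T.low0, h1,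
        map_smul, map_zero, smul_zero, sub_zero]
    · simp only [LinearMap.sub_apply, LinearMap.smul_apply, Module.End.mul_apply, T.low, Dg_apply,
        map_smul, T.X3_apply]
      simp only [smul_smul]
      rw [← sub_smul]
      congr 1
      by_cases h : s = i ∨ s + i + 1 = 2 * p
      · have h1 := delta_eq (k := k) (2 * p) i s h
        push_cast
        rw [show ind k (2 * p) i s = 1 from if_pos h]
        rw [← h1]
        ring
      · rw [show ind k (2 * p) i s = 0 from if_neg h]
        ring
  · have h1 : ∑ i ∈ Finset.range p, Dg T.reg T.vec (ind k (2 * p) i) * f = f := by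
      refine T.reg.ext_le T.vec fun s hs => ?_
      rw [LinearMap.sum_apply]
      rcases s with _ | s
      · simp only [Module.End.mul_apply, pow_zero, Module.End.one_apply, T.low0, map_zero,
          Finset.sum_const_zero]
      · simp only [Module.End.mul_apply, T.low, Dg_apply, map_smul]
        rw [← Finset.smul_sum, ← Finset.sum_smul, ind_sum0 (by omega), one_smul]
    rw [h1]
    exact hf

end Pool.Agent.Y115.EW
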