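import Mathlib
import Pool.Agent.Y115.EW.Z
import Pool.Agent.Y114.MU.Sp

/-!
# Generation of orthogonal Lie algebras of odd dimension
-/

set_option autoImplicit false
set_option linter.unusedSectionVars false
set_option linter.unusedVariables false

namespace Pool.Agent.Y115.EW

open Module Pool.Agent.Y114.AP Pool.Agent.Y114.MU

section AA

variable {k : Type*} [Field k] {V : Type*} [AddCommGroup V] [Module k V]
  (ω : V →ₗ[k] V →ₗ[k] k)

/-- The element `x ↦ ω u x • w - ω w x • u` of the orthogonal Lie algebra. -/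
noncomputable def AA (u w : V) : End k V := (ω u).smulRight w - (ω w).smulRight u

theorem AA_apply (u w x : V) : AA ω u w x = ω u x • w - ω w x • u := rfl

theorem AA_self (u : V) : AA ω u u = 0 := sub_self _

theorem AA_neg (u w : V) : AA ω w u = -AA ω u w := (neg_sub _ _).symm

theorem AA_add (u w w' : V) : AA ω u (w + w') = AA ω u w + AA ω u w' := by
  refine LinearMap.ext fun x => ?_
  rw [LinearMap.add_apply, AA_apply, AA_apply, AA_apply, map_add, LinearMap.add_apply, smul_add,
    add_smul]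
  abel

theorem AA_smul (c : k) (u w : V) : AA ω u (c • w) = c • AA ω u w := by
  refine LinearMap.ext fun x => ?_
  rw [LinearMap.smul_apply, AA_apply, AA_apply, map_smul, LinearMap.smul_apply, smul_eq_mul,
    smul_sub, smul_smul, smul_smul, smul_smul, mul_comm (ω u x) c]

theorem AA_smul_left (c : k) (u w : V) : AA ω (c • u) w = c • AA ω u w := by
  rw [AA_neg, AA_smul, AA_neg ω u w, smul_neg, neg_neg]

theorem AA_zero_right (u : V) : AA ω u 0 = 0 := by
  rw [← zero_smul k (0 : V), AA_smul, zero_smul]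

theorem AA_zero_left (u : V) : AA ω 0 u = 0 := by
  rw [AA_neg, AA_zero_right, neg_zero]

theorem AA_sum {ι : Type*} (s : Finset ι) (c : ι → k) (u : V) (w : ι → V) :
    AA ω u (∑ i ∈ s, c i • w i) = ∑ i ∈ s, c i • AA ω u (w i) := by
  classical
  induction s using Finset.induction_on with
  | empty =>
    rw [Finset.sum_empty, Finset.sum_empty, ← zero_smul k (0 : V), AA_smul, zero_smul]
  | insert a s ha ih => rw [Finset.sum_insert ha, Finset.sum_insert ha, AA_add, AA_smul, ih]

theorem bracket_AA {X : End k V} (hX : X ∈ SpL ω) (u w : V) :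
    X * AA ω u w - AA ω u w * X = AA ω (X u) w + AA ω u (X w) := by
  refine LinearMap.ext fun x => ?_
  have h1 := hX u x
  have h2 := hX w x
  have e1 : ω u (X x) = -ω (X u) x := by linear_combination h1
  have e2 : ω w (X x) = -ω (X w) x := by linear_combination h2
  rw [LinearMap.sub_apply, LinearMap.add_apply, Module.End.mul_apply, Module.End.mul_apply,
    AA_apply, AA_apply, AA_apply, AA_apply, map_sub, map_smul, map_smul, e1, e2, neg_smul, neg_smul]
  abel

theorem AA_mem_SpL (hs : ∀ u w, ω u w = ω w u) (u w : V) : AA ω u w ∈ SpL ω := by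
  intro x y
  rw [AA_apply, AA_apply, map_sub, map_sub, map_smul, map_smul, LinearMap.sub_apply,
    LinearMap.smul_apply, LinearMap.smul_apply, map_smul, map_smul, hs x w, hs x u]
  simp only [smul_eq_mul]
  ring

theorem bracket_AA_AA (hs : ∀ u w, ω u w = ω w u) (u w x y : V) :
    AA ω u w * AA ω x y - AA ω x y * AA ω u w =
      AA ω (ω u x • w - ω w x • u) y + AA ω x (ω u y • w - ω w y • u) :=
  bracket_AA ω (AA_mem_SpL ω hs u w) x y

end AA

section gen

variable {k : Type*} [Field k] [CharZero k] {V : Type*} [AddCommGroup V] [Module k V]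
  [FiniteDimensional k V] {N H f : End k V} {p : ℕ} {v : V}
  (ω : V →ₗ[k] V →ₗ[k] k)

theorem form_off {r : ℕ} (T : Triple N H f r v) (hH : H ∈ SpL ω) {a b : ℕ} (h : a + b ≠ r) :
    ω ((N ^ a) v) ((N ^ b) v) = 0 := by
  have h1 := hH ((N ^ a) v) ((N ^ b) v)
  rw [T.wt, T.wt, map_smul, map_smul, LinearMap.smul_apply, smul_eq_mul, smul_eq_mul] at h1
  have h2 : ((a : k) + b - r) * ω ((N ^ a) v) ((N ^ b) v) = 0 := by linear_combination h1
  rcases mul_eq_zero.1 h2 with h3 | h3
  · exfalso
    apply h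
    have h4 : ((a + b : ℕ) : k) = (r : k) := by
      push_cast
      linear_combination h3
    exact_mod_cast h4
  · exact h3

theorem form_on {r : ℕ} (hN : N ∈ SpL ω) (a b : ℕ) :
    ω ((N ^ a) v) ((N ^ b) v) = (-1) ^ a * ω v ((N ^ (a + b)) v) := by
  induction a generalizing b with
  | zero => simp
  | succ a ih =>
    have h1 := hN ((N ^ a) v) ((N ^ b) v)
    rw [← Module.End.mul_apply, ← pow_succ', ← Module.End.mul_apply N, ← pow_succ', ih] at h1
    rw [pow_succ (-1 : k), show a + 1 + b = a + (b + 1) by ring]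
    linear_combination h1

theorem s_ne {r : ℕ} (T : Triple N H f r v) (hN : N ∈ SpL ω) (hH : H ∈ SpL ω)
    (hnd : ∀ u, (∀ x, ω x u = 0) → u = 0) : ω v ((N ^ r) v) ≠ 0 := by
  intro h0
  apply T.vec
  refine hnd _ fun x => ?_
  obtain ⟨c, rfl⟩ := T.reg.exists_coeff T.vec x
  rw [map_sum, LinearMap.sum_apply]
  refine Finset.sum_eq_zero fun i _ => ?_
  rw [map_smul, LinearMap.smul_apply]
  rcases Nat.eq_zero_or_pos i with h | h
  · rw [h, pow_zero, Module.End.one_apply, h0, smul_zero]
  · rw [form_off ω T hH (by omega), smul_zero]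

variable (hs : ∀ u w, ω u w = ω w u) (hnd : ∀ u, (∀ x, ω x u = 0) → u = 0)
  (T : Triple N H f (2 * p) v) (hN : N ∈ SpL ω) (hH : H ∈ SpL ω)
  (L : Submodule k (End k V)) (hbr : ∀ X ∈ L, ∀ Y ∈ L, X * Y - Y * X ∈ L)

include hN hH T in
/-- The simple root vectors. -/
theorem AA_eq_Z {c : ℕ} (hc : c < p) : AA ω ((N ^ (c + 1)) v) ((N ^ (2 * p - c)) v) =
    ((-1) ^ (c + 1) * ω v ((N ^ (2 * p)) v)) •
      (N * Dg T.reg T.vec (ind k (2 * p) c)) := by
  refine T.reg.ext_le T.vec fun s hs => ?_
  rw [AA_apply, LinearMap.smul_apply, Module.End.mul_apply, Dg_apply, map_smul, T.N_apply]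
  by_cases h1 : s = c
  · subst h1
    rw [form_off ω T hH (by omega), zero_smul, zero_sub, form_on (r := 2 * p) ω hN,
      show 2 * p - s + s = 2 * p by omega, show ind k (2 * p) s s = 1 from if_pos (Or.inl rfl),
      one_smul, ← neg_smul]
    congr 1
    have h2 : ((-1 : k)) ^ (2 * p - s) = (-1) ^ s := by
      have h3 : ((-1 : k)) ^ (2 * p - s) * (-1) ^ s = 1 := by
        rw [← pow_add, show 2 * p - s + s = 2 * p by omega, pow_mul, neg_one_sq, one_pow]
      have h4 : ((-1 : k)) ^ s * (-1) ^ s = 1 := by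
        rw [← pow_add, ← two_mul, pow_mul, neg_one_sq, one_pow]
      exact mul_right_cancel₀ (pow_ne_zero s (by norm_num : (-1 : k) ≠ 0)) (h3.trans h4.symm)
    rw [h2]
    ring
  · by_cases h2 : s + c + 1 = 2 * p
    · rw [form_off ω T hH (show 2 * p - c + s ≠ 2 * p by omega), zero_smul, sub_zero,
        form_on (r := 2 * p) ω hN, show c + 1 + s = 2 * p by omega,
        show ind k (2 * p) c s = 1 from if_pos (Or.inr h2), one_smul]
      rw [show 2 * p - c = s + 1 by omega]
    · rw [form_off ω T hH (show 2 * p - c + s ≠ 2 * p by omega),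
        form_off ω T hH (show c + 1 + s ≠ 2 * p by omega), zero_smul, zero_smul, sub_zero,
        show ind k (2 * p) c s = 0 from if_neg (by omega), zero_smul, smul_zero]

include hN hH T in
/-- The negative simple root vectors. -/
theorem AA_eq_Z' {c : ℕ} (hc : c < p) : Fc (2 * p) ((c : k) + 1) •
    AA ω ((N ^ c) v) ((N ^ (2 * p - 1 - c)) v) =
    ((-1) ^ c * ω v ((N ^ (2 * p)) v)) •
      (Dg T.reg T.vec (ind k (2 * p) c) * f) := by
  refine T.reg.ext_le T.vec fun s hs => ?_
  rw [LinearMap.smul_apply, AA_apply, LinearMap.smul_apply, Module.End.mul_apply]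
  rcases s with _ | s
  · rw [form_off ω T hH (by omega), form_off ω T hH (by omega), pow_zero, Module.End.one_apply,
      T.low0, map_zero, zero_smul, zero_smul, sub_zero, smul_zero, smul_zero]
  · rw [T.low, map_smul, Dg_apply, smul_smul, smul_smul]
    by_cases h1 : s = c
    · subst h1
      rw [form_off ω T hH (by omega), zero_smul, zero_sub, form_on (r := 2 * p) ω hN,
        show 2 * p - 1 - s + (s + 1) = 2 * p by omega,
        show ind k (2 * p) s s = 1 from if_pos (Or.inl rfl), mul_one, ← neg_smul, smul_smul]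
      congr 1
      have h2 : ((-1 : k)) ^ (2 * p - 1 - s) = -(-1) ^ s := by
        have h3 : ((-1 : k)) ^ (2 * p - 1 - s) * (-1) ^ (s + 1) = 1 := by
          rw [← pow_add, show 2 * p - 1 - s + (s + 1) = 2 * p by omega, pow_mul, neg_one_sq, one_pow]
        have h4 : (-((-1 : k)) ^ s) * (-1) ^ (s + 1) = 1 := by
          rw [neg_mul, ← pow_add, ← add_assoc, ← two_mul, pow_succ, pow_mul, neg_one_sq, one_pow]
          ring
        exact mul_right_cancel₀ (pow_ne_zero (s + 1) (by norm_num : (-1 : k) ≠ 0))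
          (h3.trans h4.symm)
      rw [h2]
      ring
    · by_cases h2 : s + c + 1 = 2 * p
      · rw [form_off ω T hH (show 2 * p - 1 - c + (s + 1) ≠ 2 * p by omega), zero_smul, sub_zero,
          form_on (r := 2 * p) ω hN, show c + (s + 1) = 2 * p by omega,
          show ind k (2 * p) c s = 1 from if_pos (Or.inr h2), mul_one, smul_smul]
        rw [show 2 * p - 1 - c = s by omega]
        congr 1
        have h3 : (s : k) + 1 = 2 * p - c := by
          have h4 : ((s + 1 + c : ℕ) : k) = ((2 * p : ℕ) : k) := by congr 1; omega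
          push_cast at h4
          linear_combination h4
        rw [h3]
        unfold Fc
        push_cast
        ring
      · rw [form_off ω T hH (show 2 * p - 1 - c + (s + 1) ≠ 2 * p by omega),
          form_off ω T hH (show c + (s + 1) ≠ 2 * p by omega), zero_smul, zero_smul, sub_zero,
          show ind k (2 * p) c s = 0 from if_neg (by omega), mul_zero, zero_smul, smul_zero]

include hs hnd hN hH T hbr in
/-- An element on a level is in `L`. -/
theorem raise (hP : ∀ c < p, N * Dg T.reg T.vec (ind k (2 * p) c) ∈ L) (d : ℕ) :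
    ∀ a b : ℕ, a ≤ 2 * p → b ≤ 2 * p → a < b → a + b = 2 * p + 1 + d →
      AA ω ((N ^ a) v) ((N ^ b) v) ∈ L := by
  have hs0 := s_ne ω T hN hH hnd
  -- the first level
  have h1 : ∀ a b : ℕ, a + b = 2 * p + 1 → a < b → 1 ≤ a → AA ω ((N ^ a) v) ((N ^ b) v) ∈ L := by
    intro a b hab hlt ha
    obtain ⟨c, rfl⟩ := Nat.exists_eq_add_of_le' ha
    have h2 := AA_eq_Z ω T hN hH (c := c) (by omega)
    rw [show 2 * p - c = b by omega] at h2
    rw [h2]
    exact Submodule.smul_mem _ _ (hP c (by omega))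
  induction d with
  | zero =>
    intro a b ha hb hlt hab
    exact h1 a b (by omega) hlt (by omega)
  | succ d ih =>
    intro a b ha hb hlt hab
    have h2 := ih (a - 1) b (by omega) hb (by omega) (by omega)
    have h3 : AA ω ((N ^ a) v) ((N ^ (2 * p + 1 - a)) v) ∈ L := by
      rcases lt_or_ge a (2 * p + 1 - a) with h | h
      · exact h1 _ _ (by omega) h (by omega)
      · rw [AA_neg]
        exact Submodule.neg_mem _ (h1 _ _ (by omega) (by omega) (by omega))
    have h4 := hbr _ h3 _ h2
    rw [bracket_AA_AA ω hs, form_off ω T hH (show a + (a - 1) ≠ 2 * p by omega),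
      form_off ω T hH (show a + b ≠ 2 * p by omega),
      form_off ω T hH (show 2 * p + 1 - a + b ≠ 2 * p by omega), zero_smul, zero_smul,
      sub_zero, zero_sub, AA_zero_right, add_zero, ← neg_smul, AA_smul_left, form_on (r := 2 * p) ω hN, show 2 * p + 1 - a + (a - 1) = 2 * p by omega] at h4
    have h5 : -((-1) ^ (2 * p + 1 - a) * ω v ((N ^ (2 * p)) v)) ≠ 0 :=
      neg_ne_zero.2 (mul_ne_zero (pow_ne_zero _ (by norm_num)) hs0)
    exact (Submodule.smul_mem_iff _ h5).1 h4

include hs hnd hN hH T hbr in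
theorem low_one (hf : Reg f (2 * p)) (hQ : ∀ c < p, Dg T.reg T.vec (ind k (2 * p) c) * f ∈ L)
    {a b : ℕ} (hab : a + b + 1 = 2 * p) : AA ω ((N ^ a) v) ((N ^ b) v) ∈ L := by
  have hs0 := s_ne ω T hN hH hnd
  have h1 : ∀ a b : ℕ, a + b + 1 = 2 * p → a < b → AA ω ((N ^ a) v) ((N ^ b) v) ∈ L := by
    intro a b hab hlt
    have h2 := AA_eq_Z' ω T hN hH (c := a) (by omega)
    rw [show 2 * p - 1 - a = b by omega] at h2
    have h3 : Fc (k := k) (2 * p) ((a : k) + 1) ≠ 0 := by
      unfold Fc
      have h4 : (a : k) + 1 ≠ 0 := by exact_mod_cast Nat.succ_ne_zero a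
      have h5 : (((2 * p : ℕ) : k) + 1 - ((a : k) + 1)) = ((2 * p - a : ℕ) : k) := by
        rw [Nat.cast_sub (by omega)]
        ring
      rw [h5]
      exact div_ne_zero (mul_ne_zero h4 (Nat.cast_ne_zero.2 (by omega))) two_ne_zero
    rw [← Submodule.smul_mem_iff _ h3, h2]
    exact Submodule.smul_mem _ _ (hQ a (by omega))
  rcases lt_or_ge a b with h | h
  · exact h1 _ _ hab h
  · rw [AA_neg]
    exact Submodule.neg_mem _ (h1 _ _ (by omega) (by omega))

include hs hnd hN hH T hbr in
theorem lower (hf : Reg f (2 * p)) (hQ : ∀ c < p, Dg T.reg T.vec (ind k (2 * p) c) * f ∈ L)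
    (d : ℕ) : ∀ a b : ℕ, a < b → a + b + 1 + d = 2 * p → AA ω ((N ^ a) v) ((N ^ b) v) ∈ L := by
  have hs0 := s_ne ω T hN hH hnd
  induction d with
  | zero =>
    intro a b hlt hab
    exact low_one ω hs hnd T hN hH L hbr hf hQ hab
  | succ d ih =>
    intro a b hlt hab
    have h2 := ih a (b + 1) (by omega) (by omega)
    have h3 := low_one ω hs hnd T hN hH L hbr hf hQ (a := b) (b := 2 * p - 1 - b) (by omega)
    have h4 := hbr _ h3 _ h2
    rw [bracket_AA_AA ω hs, form_off ω T hH (show b + a ≠ 2 * p by omega),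
      form_off ω T hH (show 2 * p - 1 - b + a ≠ 2 * p by omega),
      form_off ω T hH (show b + (b + 1) ≠ 2 * p by omega), zero_smul, zero_smul,
      sub_zero, zero_sub, AA_zero_left, zero_add, ← neg_smul, AA_smul, form_on (r := 2 * p) ω hN, show 2 * p - 1 - b + (b + 1) = 2 * p by omega] at h4
    have h5 : -((-1) ^ (2 * p - 1 - b) * ω v ((N ^ (2 * p)) v)) ≠ 0 :=
      neg_ne_zero.2 (mul_ne_zero (pow_ne_zero _ (by norm_num)) hs0)
    exact (Submodule.smul_mem_iff _ h5).1 h4

include hs hnd hN hH T hbr in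
theorem torus (hf : Reg f (2 * p)) (hP : ∀ c < p, N * Dg T.reg T.vec (ind k (2 * p) c) ∈ L)
    (hQ : ∀ c < p, Dg T.reg T.vec (ind k (2 * p) c) * f ∈ L)
    (d : ℕ) : ∀ a b : ℕ, a + d = p → a + b = 2 * p → AA ω ((N ^ a) v) ((N ^ b) v) ∈ L := by
  have hs0 := s_ne ω T hN hH hnd
  induction d with
  | zero =>
    intro a b ha hab
    rw [show b = a by omega, AA_self]
    exact Submodule.zero_mem _
  | succ d ih =>
    intro a b ha hab
    have h1 := ih (a + 1) (b - 1) (by omega) (by omega)
    have h2 := raise ω hs hnd T hN hH L hbr hP 0 (a + 1) b (by omega) (by omega) (by omega)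
      (by omega)
    have h3 := low_one ω hs hnd T hN hH L hbr hf hQ (a := a) (b := b - 1) (by omega)
    have h4 := hbr _ h3 _ h2
    rw [bracket_AA_AA ω hs, form_off ω T hH (show a + (a + 1) ≠ 2 * p by omega),
      form_off ω T hH (show b - 1 + b ≠ 2 * p by omega), zero_smul, zero_smul,
      sub_zero, zero_sub, ← neg_smul, AA_smul_left, AA_smul, form_on (r := 2 * p) ω hN,
      form_on (r := 2 * p) ω hN, show b - 1 + (a + 1) = 2 * p by omega, hab] at h4
    have h5 : (-1 : k) ^ (b - 1) = -(-1) ^ a := by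
      have h6 : ((-1 : k)) ^ (b - 1) * (-1) ^ (a + 1) = 1 := by
        rw [← pow_add, show b - 1 + (a + 1) = 2 * p by omega, pow_mul, neg_one_sq, one_pow]
      have h7 : (-((-1 : k)) ^ a) * (-1) ^ (a + 1) = 1 := by
        rw [neg_mul, ← pow_add, ← add_assoc, ← two_mul, pow_succ, pow_mul, neg_one_sq, one_pow]
        ring
      exact mul_right_cancel₀ (pow_ne_zero (a + 1) (by norm_num : (-1 : k) ≠ 0))
        (h6.trans h7.symm)
    rw [h5, neg_mul, neg_neg] at h4
    have h8 := Submodule.sub_mem _ h4 (Submodule.smul_mem _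
      ((-1) ^ a * ω v ((N ^ (2 * p)) v)) h1)
    rw [add_sub_cancel_right] at h8
    have h9 : (-1) ^ a * ω v ((N ^ (2 * p)) v) ≠ 0 :=
      mul_ne_zero (pow_ne_zero _ (by norm_num)) hs0
    exact (Submodule.smul_mem_iff _ h9).1 h8

include hs hnd hN hH T hbr in
theorem AA_all (hf : Reg f (2 * p)) (hP : ∀ c < p, N * Dg T.reg T.vec (ind k (2 * p) c) ∈ L)
    (hQ : ∀ c < p, Dg T.reg T.vec (ind k (2 * p) c) * f ∈ L) {a b : ℕ} (ha : a ≤ 2 * p)
    (hb : b ≤ 2 * p) : AA ω ((N ^ a) v) ((N ^ b) v) ∈ L := by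
  have key : ∀ a b : ℕ, a ≤ 2 * p → b ≤ 2 * p → a < b → AA ω ((N ^ a) v) ((N ^ b) v) ∈ L := by
    intro a b ha hb hlt
    rcases lt_trichotomy (a + b) (2 * p) with h | h | h
    · exact lower ω hs hnd T hN hH L hbr hf hQ (2 * p - 1 - a - b) a b hlt (by omega)
    · exact torus ω hs hnd T hN hH L hbr hf hP hQ (p - a) a b (by omega) h
    · exact raise ω hs hnd T hN hH L hbr hP (a + b - 2 * p - 1) a b ha hb hlt (by omega)
  rcases lt_trichotomy a b with h | h | h
  · exact key a b ha hb h
  · rw [h, AA_self]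
    exact Submodule.zero_mem _
  · rw [AA_neg]
    exact Submodule.neg_mem _ (key b a hb ha h)

include hs hnd hN hH T hbr in
/-- The simple root vectors generate the orthogonal Lie algebra. -/
theorem SpL_le_of (hf : Reg f (2 * p)) (hP : ∀ c < p, N * Dg T.reg T.vec (ind k (2 * p) c) ∈ L)
    (hQ : ∀ c < p, Dg T.reg T.vec (ind k (2 * p) c) * f ∈ L) : SpL ω ≤ L := by
  intro X hX
  have hs0 := s_ne ω T hN hH hnd
  set s := ω v ((N ^ (2 * p)) v) with hsdef
  have h1 : ∀ a ≤ 2 * p, ∀ x : V, AA ω ((N ^ a) v) x ∈ L := by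
    intro a ha x
    obtain ⟨c, rfl⟩ := T.reg.exists_coeff T.vec x
    rw [AA_sum]
    refine Submodule.sum_mem _ fun i hi => Submodule.smul_mem _ _ ?_
    rw [Finset.mem_range] at hi
    exact AA_all ω hs hnd T hN hH L hbr hf hP hQ ha (by omega)
  have h2 : ∑ a ∈ Finset.range (2 * p + 1), ((-1) ^ a / s) •
      AA ω ((N ^ (2 * p - a)) v) (X ((N ^ a) v)) = (2 : k) • X := by
    refine T.reg.ext_le T.vec fun t ht => ?_
    rw [LinearMap.sum_apply, LinearMap.smul_apply]
    have h3 : ∀ a ∈ Finset.range (2 * p + 1), (((-1) ^ a / s) •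
        AA ω ((N ^ (2 * p - a)) v) (X ((N ^ a) v))) ((N ^ t) v) =
        (if a = t then X ((N ^ t) v) else 0) +
          ((-1) ^ a / s * ω ((N ^ a) v) (X ((N ^ t) v))) • (N ^ (2 * p - a)) v := by
      intro a ha
      rw [Finset.mem_range] at ha
      rw [LinearMap.smul_apply, AA_apply, smul_sub, smul_smul, smul_smul, sub_eq_add_neg,
        ← neg_smul]
      congr 1
      · by_cases h4 : a = t
        · subst h4
          rw [if_pos rfl, form_on (r := 2 * p) ω hN, show 2 * p - a + a = 2 * p by omega, ← hsdef]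
          have h5 : (-1 : k) ^ a / s * ((-1) ^ (2 * p - a) * s) = 1 := by
            rw [div_mul_eq_mul_div, ← mul_assoc, ← pow_add, show a + (2 * p - a) = 2 * p by omega,
              pow_mul, neg_one_sq, one_pow, one_mul, div_self hs0]
          rw [h5, one_smul]
        · rw [if_neg h4, form_off ω T hH (by omega), mul_zero, zero_smul]
      · congr 1
        have h4 := hX ((N ^ a) v) ((N ^ t) v)
        linear_combination (-(-1) ^ a / s) * h4
    rw [Finset.sum_congr rfl h3, Finset.sum_add_distrib, Finset.sum_ite_eq',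
      if_pos (Finset.mem_range.2 (by omega)), two_smul]
    congr 1
    -- the expansion of a vector
    obtain ⟨c, hc⟩ := T.reg.exists_coeff T.vec (X ((N ^ t) v))
    have h4 : ∀ a ∈ Finset.range (2 * p + 1),
        ((-1) ^ a / s * ω ((N ^ a) v) (X ((N ^ t) v))) = c (2 * p - a) := by
      intro a ha
      rw [Finset.mem_range] at ha
      rw [hc, map_sum, Finset.sum_eq_single (2 * p - a), map_smul, form_on (r := 2 * p) ω hN,
        show a + (2 * p - a) = 2 * p by omega, ← hsdef, smul_eq_mul]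
      · have h5 : (-1 : k) ^ a * (-1) ^ a = 1 := by
          rw [← pow_add, ← two_mul, pow_mul, neg_one_sq, one_pow]
        field_simp
        linear_combination c (2 * p - a) * h5
      · intro i _ hi
        rw [map_smul, form_off ω T hH (by omega), smul_zero]
      · intro h
        exact absurd (Finset.mem_range.2 (by omega)) h
    have h6 : ∑ a ∈ Finset.range (2 * p + 1),
        ((-1) ^ a / s * ω ((N ^ a) v) (X ((N ^ t) v))) • (N ^ (2 * p - a)) v =
        ∑ a ∈ Finset.range (2 * p + 1), c (2 * p - a) • (N ^ (2 * p - a)) v :=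
      Finset.sum_congr rfl fun a ha => by rw [h4 a ha]
    rw [h6]
    conv_rhs => rw [hc]
    have h7 := Finset.sum_range_reflect (fun i => c i • (N ^ i) v) (2 * p + 1)
    rw [← h7]
    refine Finset.sum_congr rfl fun a ha => ?_
    rw [show 2 * p + 1 - 1 - a = 2 * p - a by omega]
  rw [← Submodule.smul_mem_iff _ (two_ne_zero (α := k)), ← h2]
  refine Submodule.sum_mem _ fun a ha => Submodule.smul_mem _ _ ?_
  exact h1 _ (by omega) _

end gen

end Pool.Agent.Y115.EW
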