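import Mathlib
import Pool.Agent.Y115.EW.So
import Pool.Agent.Y114.MU.Factor
import Pool.Agent.Y114.RM.Stm

/-!
# Lie algebras of orthogonal similitudes which contain a regular nilpotent element
-/

set_option autoImplicit false
set_option linter.unusedSectionVars false
set_option linter.unusedVariables false

namespace Pool.Agent.Y115.EW

open Module Pool.Agent.Y114.AP Pool.Agent.Y114.MU Pool.Agent.Y114.RM

section base

variable {k : Type*} [Field k] [CharZero k] {V : Type*} [AddCommGroup V] [Module k V]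
  [FiniteDimensional k V] {N H f : End k V} {r p : ℕ} {v : V}

theorem H_pow (h : H * N - N * H = N) (i : ℕ) :
    H * N ^ i = N ^ i * H + (i : k) • N ^ i := by
  induction i with
  | zero => simp
  | succ i ih =>
    have h' : H * N = N * H + N := by rw [← sub_eq_iff_eq_add', h]
    rw [pow_succ, ← mul_assoc, ih, add_mul, mul_assoc (N ^ i) H N, h', mul_add, smul_mul_assoc,
      mul_assoc]
    push_cast
    rw [add_smul, one_smul]
    abel

theorem HZ {p : ℕ} (T : Triple N H f (2 * p) v) (c : ℕ) :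
    H * (N * Dg T.reg T.vec (ind k (2 * p) c)) - (N * Dg T.reg T.vec (ind k (2 * p) c)) * H =
      N * Dg T.reg T.vec (ind k (2 * p) c) := by
  refine T.reg.ext_le T.vec fun s hs => ?_
  simp only [LinearMap.sub_apply, Module.End.mul_apply, Dg_apply, map_smul, T.N_apply, T.wt]
  rw [smul_smul, smul_smul, ← sub_smul]
  congr 1
  push_cast
  ring

theorem HZ' {p : ℕ} (T : Triple N H f (2 * p) v) (c : ℕ) :
    (Dg T.reg T.vec (ind k (2 * p) c) * f) * H - H * (Dg T.reg T.vec (ind k (2 * p) c) * f) =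
      Dg T.reg T.vec (ind k (2 * p) c) * f := by
  refine T.reg.ext_le T.vec fun s hs => ?_
  rcases s with _ | s
  · have h1 := T.wt 0
    rw [pow_zero, Module.End.one_apply] at h1 ⊢
    simp only [LinearMap.sub_apply, Module.End.mul_apply, map_smul, T.low0, map_zero, smul_zero,
      sub_zero, h1]
  · simp only [LinearMap.sub_apply, Module.End.mul_apply, Dg_apply, map_smul, T.low, T.wt]
    simp only [smul_smul]
    rw [← sub_smul]
    congr 1
    push_cast
    ring

/-- The exponents `i` such that `N ^ i` is in `L`. -/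
theorem cen_bound (L L0 : Submodule k (End k V)) (hbr0 : ∀ X ∈ L0, ∀ Y ∈ L0, X * Y - Y * X ∈ L0)
    (htr0 : ∀ X ∈ L0, LinearMap.trace k V X = 0)
    (hL : ∀ X ∈ L, ∃ c : k, X - c • (1 : End k V) ∈ L0) (T : Triple N H f r v)
    (hH : H ∈ L0) (E : Finset ℕ) (hE : ∀ i, 1 ≤ i → i ≤ r → N ^ i ∈ L0 → i ∈ E) :
    finrank k (cen L N) ≤ E.card + 1 := by
  classical
  have h1 : cen L N ≤ Submodule.span k
      (((insert 0 E).image (fun i => N ^ i) : Finset (End k V)) : Set (End k V)) := by
    rintro X ⟨hX, hXN⟩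
    obtain ⟨c, hc⟩ := hL X hX
    have h2 : (X - c • (1 : End k V)) * N = N * (X - c • (1 : End k V)) := by
      rw [sub_mul, mul_sub, hXN, smul_mul_assoc, mul_smul_comm, one_mul, mul_one]
    obtain ⟨a, ha0, ha⟩ := T.reg.comm' L0 htr0 hc h2
    have h3 : ∀ i ∈ Finset.range (r + 1), a i • N ^ i ∈ L0 := by
      intro i hi
      refine split_mem (LinearMap.mulLeft k H - LinearMap.mulRight k H) L0
        (fun z hz => hbr0 H hH z hz) (Finset.range (r + 1)) (fun j => (j : k))
        (fun i _ j _ hij => by exact_mod_cast hij) (fun j => a j • N ^ j) (fun j _ => ?_) ?_ i hi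
      · change H * (a j • N ^ j) - (a j • N ^ j) * H = (j : k) • (a j • N ^ j)
        rw [mul_smul_comm, H_pow T.HN, smul_mul_assoc, smul_add, add_sub_cancel_left, smul_comm]
      · rw [← ha]
        exact hc
    have h4 : X = c • N ^ 0 + ∑ i ∈ Finset.range (r + 1), a i • N ^ i := by
      rw [← ha, pow_zero]
      abel
    rw [h4]
    refine Submodule.add_mem _ (Submodule.smul_mem _ _ (Submodule.subset_span ?_))
      (Submodule.sum_mem _ fun i hi => ?_)
    · rw [Finset.mem_coe, Finset.mem_image]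
      exact ⟨0, Finset.mem_insert_self _ _, rfl⟩
    · by_cases hai : a i = 0
      · rw [hai, zero_smul]
        exact Submodule.zero_mem _
      · refine Submodule.smul_mem _ _ (Submodule.subset_span ?_)
        rw [Finset.mem_coe, Finset.mem_image]
        refine ⟨i, Finset.mem_insert_of_mem (hE i ?_ ?_ ?_), rfl⟩
        · rcases Nat.eq_zero_or_pos i with h | h
          · rw [h] at hai
            exact absurd ha0 hai
          · exact h
        · rw [Finset.mem_range] at hi
          omega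
        · exact (Submodule.smul_mem_iff _ hai).1 (h3 i hi)
  calc finrank k (cen L N) ≤ finrank k (Submodule.span k
      (((insert 0 E).image (fun i => N ^ i) : Finset (End k V)) : Set (End k V))) :=
        Submodule.finrank_mono h1
    _ ≤ ((insert 0 E).image (fun i => N ^ i)).card := finrank_span_finset_le_card _
    _ ≤ (insert 0 E).card := Finset.card_image_le
    _ ≤ E.card + 1 := Finset.card_insert_le _ _

end base

section core

variable {k : Type*} [Field k] [CharZero k] {V : Type*} [AddCommGroup V] [Module k V]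
  [FiniteDimensional k V] {N : End k V} {p : ℕ} (ω : V →ₗ[k] V →ₗ[k] k)

/-- **An irreducible Lie algebra of orthogonal similitudes which contains a nilpotent element with
one Jordan block, and in which the centralizer of this element is sufficiently large, contains the
orthogonal Lie algebra.** -/
theorem core (hs : ∀ u w, ω u w = ω w u) (hnd : ∀ u, (∀ x, ω x u = 0) → u = 0)
    (h : Reg N (2 * p)) (hNs : N ∈ SpL ω) (L : Submodule k (End k V))
    (hbr : ∀ X ∈ L, ∀ Y ∈ L, X * Y - Y * X ∈ L)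
    (hL : ∀ X ∈ L, ∃ c : k, X - c • (1 : End k V) ∈ SpL ω)
    (hirr : ∀ U : Submodule k V, (∀ X ∈ L, ∀ u ∈ U, X u ∈ U) → U = ⊥ ∨ U = ⊤) (hNL : N ∈ L)
    (hcen : 2 ≤ p → 3 ≤ finrank k (cen L N) ∧
      ((∃ m, 3 * (2 * p + 1) ^ 2 + 3 = 5 * (m * (m + 1))) → 4 ≤ finrank k (cen L N))) :
    SpL ω ≤ L := by
  classical
  set L0 : Submodule k (End k V) := (L ⊔ Submodule.span k {(1 : End k V)}) ⊓ SpL ω with hL0
  have hmem : ∀ X, X ∈ L0 ↔ X ∈ SpL ω ∧ ∃ c : k, X + c • (1 : End k V) ∈ L := by
    intro X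
    rw [hL0, Submodule.mem_inf, and_comm, Submodule.mem_sup]
    refine and_congr Iff.rfl ⟨?_, ?_⟩
    · rintro ⟨Y, hY, Z, hZ, rfl⟩
      obtain ⟨c, rfl⟩ := Submodule.mem_span_singleton.1 hZ
      exact ⟨-c, by rw [neg_smul, add_neg_cancel_right]; exact hY⟩
    · rintro ⟨c, hc⟩
      exact ⟨_, hc, -(c • (1 : End k V)), Submodule.neg_mem _
        (Submodule.smul_mem _ _ (Submodule.mem_span_singleton_self _)), by abel⟩
  have hSbr : ∀ X ∈ SpL ω, ∀ Y ∈ SpL ω, X * Y - Y * X ∈ SpL ω := by
    intro X hX Y hY u w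
    have h1 := hX (Y u) w
    have h2 := hY (X u) w
    have h3 := hX u (Y w)
    have h4 := hY u (X w)
    rw [LinearMap.sub_apply, LinearMap.sub_apply, map_sub, map_sub, LinearMap.sub_apply,
      Module.End.mul_apply, Module.End.mul_apply, Module.End.mul_apply, Module.End.mul_apply]
    linear_combination h1 - h2 + h3 - h4
  -- brackets
  have hbrL : ∀ X ∈ L0, ∀ Y ∈ L0, X * Y - Y * X ∈ L := by
    intro X hX Y hY
    obtain ⟨-, c, hc⟩ := (hmem X).1 hX
    obtain ⟨-, d, hd⟩ := (hmem Y).1 hY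
    have h1 := hbr _ hc _ hd
    have h2 : (X + c • (1 : End k V)) * (Y + d • (1 : End k V)) -
        (Y + d • (1 : End k V)) * (X + c • (1 : End k V)) = X * Y - Y * X := by
      simp only [mul_add, add_mul, smul_mul_assoc, mul_smul_comm, mul_one, one_mul, smul_add]
      rw [smul_comm c d]
      abel
    rw [h2] at h1
    exact h1
  have hbr0 : ∀ X ∈ L0, ∀ Y ∈ L0, X * Y - Y * X ∈ L0 := by
    intro X hX Y hY
    refine (hmem _).2 ⟨hSbr X ((hmem X).1 hX).1 Y ((hmem Y).1 hY).1, 0, ?_⟩
    rw [zero_smul, add_zero]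
    exact hbrL X hX Y hY
  have hLL0 : ∀ X ∈ L, ∃ c : k, X - c • (1 : End k V) ∈ L0 := by
    intro X hX
    obtain ⟨c, hc⟩ := hL X hX
    exact ⟨c, (hmem _).2 ⟨hc, c, by rw [sub_add_cancel]; exact hX⟩⟩
  have hirr0 : ∀ U : Submodule k V, (∀ X ∈ L0, ∀ u ∈ U, X u ∈ U) → U = ⊥ ∨ U = ⊤ := by
    intro U hU
    refine hirr U fun X hX u hu => ?_
    obtain ⟨c, hc⟩ := hLL0 X hX
    have h1 := hU _ hc u hu
    have h2 : X u = (X - c • (1 : End k V)) u + c • u := by
      rw [LinearMap.sub_apply, LinearMap.smul_apply, Module.End.one_apply, sub_add_cancel]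
    rw [h2]
    exact U.add_mem h1 (U.smul_mem _ hu)
  have htr0 : ∀ X ∈ L0, LinearMap.trace k V X = 0 := fun X hX =>
    SpL_trace ω hnd ((hmem X).1 hX).1
  have hN0 : N ∈ L0 := (hmem N).2 ⟨hNs, 0, by rw [zero_smul, add_zero]; exact hNL⟩
  have hnd0 : ∀ X ∈ L0, (∀ Y ∈ L0, LinearMap.trace k V (X * Y) = 0) → X = 0 :=
    fun X hX hX' => rad_zero L0 hbr0 hirr0 htr0 h hN0 hX hX'
  obtain ⟨H, f, v, T, hH, hf⟩ := exists_triple L0 hbr0 hirr0 htr0 h hN0
  -- the cube
  have hN3 : N ^ 3 ∈ L0 := by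
    rcases lt_or_ge p 2 with hp | hp
    · rw [h.pow_zero_of_lt (show 2 * p < 3 by omega)]
      exact Submodule.zero_mem _
    · obtain ⟨h3, h4⟩ := hcen hp
      set E : Finset ℕ := (Finset.Icc 1 (2 * p)).filter (fun i => N ^ i ∈ L0) with hE
      have hEm : ∀ i, i ∈ E ↔ (1 ≤ i ∧ i ≤ 2 * p) ∧ N ^ i ∈ L0 := by
        intro i
        rw [hE, Finset.mem_filter, Finset.mem_Icc]
      have hb := cen_bound L L0 hbr0 htr0 hLL0 T hH E
        (fun i h1 h2 h3 => (hEm i).2 ⟨⟨h1, h2⟩, h3⟩)
      have hgo : ∀ m ∈ E, m ≠ 1 → 3 * (2 * p + 1) ^ 2 + 3 ≠ 5 * (m * (m + 1)) → N ^ 3 ∈ L0 := by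
        intro m hm hm1 hex
        obtain ⟨⟨h5, h6⟩, h7⟩ := (hEm m).1 hm
        exact cube_mem' L0 hbr0 hnd0 T hN0 hH hf (by omega) h6 hex h7
      have hE1 : 1 ∈ E := (hEm 1).2 ⟨⟨le_rfl, by omega⟩, by rw [pow_one]; exact hN0⟩
      obtain ⟨m, hm, hm1⟩ : ∃ m ∈ E, m ≠ 1 := by
        have h5 : 1 < E.card := by omega
        obtain ⟨m, hm, hne⟩ := Finset.exists_mem_ne h5 1
        exact ⟨m, hm, hne⟩
      by_cases hex : 3 * (2 * p + 1) ^ 2 + 3 = 5 * (m * (m + 1))
      · have h5 := h4 ⟨m, hex⟩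
        have h6 : 2 < E.card := by omega
        have h7 : ∃ m' ∈ E, m' ≠ 1 ∧ m' ≠ m := by
          by_contra hno
          push Not at hno
          have h8 : E ⊆ {1, m} := by
            intro x hx
            rw [Finset.mem_insert, Finset.mem_singleton]
            by_cases hx1 : x = 1
            · exact Or.inl hx1
            · exact Or.inr (hno x hx hx1)
          have h9 := (Finset.card_le_card h8).trans Finset.card_le_two
          omega
        obtain ⟨m', hm', hm'1, hm'm⟩ := h7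
        refine hgo m' hm' hm'1 ?_
        rw [hex]
        intro h8
        apply hm'm
        have h9 : m * (m + 1) = m' * (m' + 1) := by omega
        rcases lt_trichotomy m' m with h10 | h10 | h10
        · exfalso
          have := Nat.mul_lt_mul'' h10 (Nat.succ_lt_succ h10)
          simp only [Nat.succ_eq_add_one] at this
          omega
        · exact h10
        · exfalso
          have := Nat.mul_lt_mul'' h10 (Nat.succ_lt_succ h10)
          simp only [Nat.succ_eq_add_one] at this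
          omega
      · exact hgo m hm hm1 hex
  have hX : X3 N f ∈ L0 := by
    have h1 : ∀ Z ∈ L0, f * Z - Z * f ∈ L0 := fun Z hZ => hbr0 _ hf _ hZ
    exact h1 _ (h1 _ (h1 _ hN3))
  refine SpL_le_of ω hs hnd T hNs ((hmem H).1 hH).1 L hbr T.reg_f (fun c hc => ?_) fun c hc => ?_
  · have h1 := hbrL _ hH _ (Z_mem0 L0 hbr0 T hN0 hX hc)
    rw [HZ T] at h1
    exact h1
  · have h1 := hbrL _ (Z'_mem0 L0 hbr0 T hf hX hc) _ hH
    rw [HZ' T] at h1
    exact h1

end core

end Pool.Agent.Y115.EW
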