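import Mathlib
import Pool.Agent.Y115.EW.Core
import Pool.Agent.Y114.RM.Defs

/-!
# Forms and tensors
-/

set_option autoImplicit false
set_option linter.unusedSectionVars false
set_option linter.unusedVariables false

namespace Pool.Agent.Y115.EW

open Module Pool.Agent.Y114.MU Pool.Agent.Y114.RM

section dT

variable {k : Type} [Field k] {V : Type} [AddCommGroup V] [Module k V]

/-- The product of the form `f` and of the form `f` on the dual space. -/
noncomputable def dT (e : V ≃ₗ[k] Dual k V) {m : ℕ} (f : MultilinearMap k (fun _ : Fin m => V) k) :
    Tensor k V (m + m) where
  toFun v := f (fun i => (v (Fin.castAdd m i)).1) * f (fun i => e.symm (v (Fin.natAdd m i)).2)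
  map_update_add' := by
    intro inst v l x y
    have hinst : inst = instDecidableEqFin (m + m) := Subsingleton.elim _ _
    subst hinst
    refine Fin.addCases (fun i => ?_) (fun i => ?_) l
    · have h1 : ∀ z : V × Dual k V, (fun j => (Function.update v (Fin.castAdd m i) z
          (Fin.castAdd m j)).1) = Function.update (fun j => (v (Fin.castAdd m j)).1) i z.1 := by
        intro z
        funext j
        by_cases h : j = i
        · subst h
          simp
        · rw [Function.update_of_ne h, Function.update_of_ne
            (fun h' => h (Fin.castAdd_injective _ _ h'))]
      have h2 : ∀ z : V × Dual k V, (fun j => e.symm (Function.update v (Fin.castAdd m i) z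
          (Fin.natAdd m j)).2) = fun j => e.symm (v (Fin.natAdd m j)).2 := by
        intro z
        funext j
        rw [Function.update_of_ne]
        intro h'
        have := congrArg Fin.val h'
        simp at this
        omega
      rw [h1, h1, h1, h2, h2, h2, Prod.fst_add, MultilinearMap.map_update_add, add_mul]
    · have h1 : ∀ z : V × Dual k V, (fun j => (Function.update v (Fin.natAdd m i) z
          (Fin.castAdd m j)).1) = fun j => (v (Fin.castAdd m j)).1 := by
        intro z
        funext j
        rw [Function.update_of_ne]
        intro h'
        have := congrArg Fin.val h'
        simp at this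
        omega
      have h2 : ∀ z : V × Dual k V, (fun j => e.symm (Function.update v (Fin.natAdd m i) z
          (Fin.natAdd m j)).2) =
            Function.update (fun j => e.symm (v (Fin.natAdd m j)).2) i (e.symm z.2) := by
        intro z
        funext j
        by_cases h : j = i
        · subst h
          simp
        · rw [Function.update_of_ne h, Function.update_of_ne
            (fun h' => h (Fin.natAdd_injective _ _ h'))]
      rw [h1, h1, h1, h2, h2, h2, Prod.snd_add, map_add, MultilinearMap.map_update_add, mul_add]
  map_update_smul' := by
    intro inst v l c x
    have hinst : inst = instDecidableEqFin (m + m) := Subsingleton.elim _ _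
    subst hinst
    refine Fin.addCases (fun i => ?_) (fun i => ?_) l
    · have h1 : ∀ z : V × Dual k V, (fun j => (Function.update v (Fin.castAdd m i) z
          (Fin.castAdd m j)).1) = Function.update (fun j => (v (Fin.castAdd m j)).1) i z.1 := by
        intro z
        funext j
        by_cases h : j = i
        · subst h
          simp
        · rw [Function.update_of_ne h, Function.update_of_ne
            (fun h' => h (Fin.castAdd_injective _ _ h'))]
      have h2 : ∀ z : V × Dual k V, (fun j => e.symm (Function.update v (Fin.castAdd m i) z
          (Fin.natAdd m j)).2) = fun j => e.symm (v (Fin.natAdd m j)).2 := by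
        intro z
        funext j
        rw [Function.update_of_ne]
        intro h'
        have := congrArg Fin.val h'
        simp at this
        omega
      rw [h1, h1, h2, h2, Prod.smul_fst, MultilinearMap.map_update_smul, smul_eq_mul, smul_eq_mul,
        mul_assoc]
    · have h1 : ∀ z : V × Dual k V, (fun j => (Function.update v (Fin.natAdd m i) z
          (Fin.castAdd m j)).1) = fun j => (v (Fin.castAdd m j)).1 := by
        intro z
        funext j
        rw [Function.update_of_ne]
        intro h'
        have := congrArg Fin.val h'
        simp at this
        omega
      have h2 : ∀ z : V × Dual k V, (fun j => e.symm (Function.update v (Fin.natAdd m i) z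
          (Fin.natAdd m j)).2) =
            Function.update (fun j => e.symm (v (Fin.natAdd m j)).2) i (e.symm z.2) := by
        intro z
        funext j
        by_cases h : j = i
        · subst h
          simp
        · rw [Function.update_of_ne h, Function.update_of_ne
            (fun h' => h (Fin.natAdd_injective _ _ h'))]
      rw [h1, h1, h2, h2, Prod.smul_snd, map_smul, MultilinearMap.map_update_smul, smul_eq_mul,
        smul_eq_mul]
      ring

theorem dT_apply (e : V ≃ₗ[k] Dual k V) {m : ℕ} (f : MultilinearMap k (fun _ : Fin m => V) k)
    (v : Fin (m + m) → V × Dual k V) : dT e f v =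
      f (fun i => (v (Fin.castAdd m i)).1) * f (fun i => e.symm (v (Fin.natAdd m i)).2) := rfl

/-- The action of an endomorphism on a form. -/
noncomputable def LX {m : ℕ} (X : End k V) (f : MultilinearMap k (fun _ : Fin m => V) k)
    (v : Fin m → V) : k := ∑ l, f (Function.update v l (X (v l)))

/-- If `X` kills the product, it acts as a scalar on the form. -/
theorem kills_dT (e : V ≃ₗ[k] Dual k V) {m : ℕ} (f : MultilinearMap k (fun _ : Fin m => V) k)
    {X X' : End k V} (hX' : ∀ x, e (X' x) = -(X.dualMap (e x))) (h : KillsTensor X (dT e f))
    (a x : Fin m → V) : LX X f a * f x + f a * LX X' f x = 0 := by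
  have h1 := h (Fin.addCases (fun i => (a i, 0)) (fun i => (0, e (x i))))
  rw [Fin.sum_univ_add] at h1
  have e1 : ∀ i : Fin m, dT e f (Function.update
      (Fin.addCases (fun i => (a i, (0 : Dual k V))) (fun i => ((0 : V), e (x i))))
      (Fin.castAdd m i) (lie X ((Fin.addCases (fun i => (a i, (0 : Dual k V)))
        (fun i => ((0 : V), e (x i))) : Fin (m + m) → V × Dual k V) (Fin.castAdd m i)))) =
      f (Function.update a i (X (a i))) * f x := by
    intro i
    rw [dT_apply]
    congr 2
    · funext j
      by_cases h : j = i
      · subst h
        simp [lie]
      · rw [Function.update_of_ne h, Function.update_of_ne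
          (fun h' => h (Fin.castAdd_injective _ _ h'))]
        simp
    · funext j
      rw [Function.update_of_ne]
      · simp only [Fin.addCases_right, LinearEquiv.symm_apply_apply]
      · intro h'
        have := congrArg Fin.val h'
        simp at this
        omega
  have e2 : ∀ i : Fin m, dT e f (Function.update
      (Fin.addCases (fun i => (a i, (0 : Dual k V))) (fun i => ((0 : V), e (x i))))
      (Fin.natAdd m i) (lie X ((Fin.addCases (fun i => (a i, (0 : Dual k V)))
        (fun i => ((0 : V), e (x i))) : Fin (m + m) → V × Dual k V) (Fin.natAdd m i)))) =
      f a * f (Function.update x i (X' (x i))) := by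
    intro i
    rw [dT_apply]
    congr 2
    · funext j
      rw [Function.update_of_ne]
      · simp
      · intro h'
        have := congrArg Fin.val h'
        simp at this
        omega
    · funext j
      by_cases h : j = i
      · subst h
        rw [Function.update_self, Function.update_self]
        simp only [Fin.addCases_right, lie]
        rw [LinearEquiv.symm_apply_eq, hX']
        rfl
      · rw [Function.update_of_ne h, Function.update_of_ne
          (fun h' => h (Fin.natAdd_injective _ _ h'))]
        simp only [Fin.addCases_right, LinearEquiv.symm_apply_apply]
  rw [Finset.sum_congr rfl fun i _ => e1 i, Finset.sum_congr rfl fun i _ => e2 i,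
    ← Finset.sum_mul, ← Finset.mul_sum] at h1
  exact h1

end dT

end Pool.Agent.Y115.EW
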