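import Mathlib
import Pool.Agent.Y115.EW.TF
import Pool.Agent.Y114.RM.Stm3

/-!
# The Lie algebra attached to an orthogonal representation
-/

set_option autoImplicit false
set_option linter.unusedSectionVars false
set_option linter.unusedVariables false

namespace Pool.Agent.Y115.EW

open Module Pool.Agent.Y114.MU Pool.Agent.Y114.RM

variable {k : Type} [Field k] [CharZero k] {V : Type} [AddCommGroup V] [Module k V]
  [FiniteDimensional k V] (ω : V →ₗ[k] V →ₗ[k] k) (hs : ∀ u w, ω u w = ω w u)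
  (hnd : ∀ u, (∀ x, ω x u = 0) → u = 0)

include hs hnd in
theorem omega_inj : Function.Injective ω := by
  rw [injective_iff_map_eq_zero]
  intro u hu
  refine hnd u fun x => ?_
  rw [hs, hu, LinearMap.zero_apply]

/-- The isomorphism with the dual space. -/
noncomputable def eω : V ≃ₗ[k] Dual k V :=
  LinearMap.linearEquivOfInjective ω (omega_inj ω hs hnd) (Subspace.dual_finrank_eq).symm

theorem eω_apply (u : V) : eω ω hs hnd u = ω u := rfl

/-- The form `ω` as a multilinear form. -/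
noncomputable def ωM : MultilinearMap k (fun _ : Fin 2 => V) k where
  toFun v := ω (v 0) (v 1)
  map_update_add' := by
    intro inst v l x y
    have hinst : inst = instDecidableEqFin 2 := Subsingleton.elim _ _
    subst hinst
    fin_cases l
    · simp
    · simp
  map_update_smul' := by
    intro inst v l c x
    have hinst : inst = instDecidableEqFin 2 := Subsingleton.elim _ _
    subst hinst
    fin_cases l
    · simp
    · simp

theorem ωM_apply (v : Fin 2 → V) : ωM ω v = ω (v 0) (v 1) := rfl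

theorem LX_ωM (X : End k V) (v : Fin 2 → V) :
    LX X (ωM ω) v = ω (X (v 0)) (v 1) + ω (v 0) (X (v 1)) := by
  unfold LX
  rw [Fin.sum_univ_two, ωM_apply, ωM_apply]
  simp

section rep

variable {Γ : Type} [Group Γ] (ρ : Representation k Γ V) (χ : Γ →* k)
  (hsim : ∀ s x y, ω (ρ s x) (ρ s y) = χ s * ω x y)

theorem chi_ne (s : Γ) : χ s ≠ 0 := by
  intro h
  have h1 : χ (s * s⁻¹) = 0 := by rw [map_mul, h, zero_mul]
  rw [mul_inv_cancel, map_one] at h1
  exact one_ne_zero h1

include hsim in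
theorem eω_dual (s : Γ) (l : Dual k V) :
    (eω ω hs hnd).symm ((ρ s⁻¹).dualMap l) = (χ s)⁻¹ • ρ s ((eω ω hs hnd).symm l) := by
  obtain ⟨x, rfl⟩ := (eω ω hs hnd).surjective l
  rw [LinearEquiv.symm_apply_apply, LinearEquiv.symm_apply_eq]
  refine LinearMap.ext fun w => ?_
  rw [eω_apply, eω_apply, LinearMap.dualMap_apply, map_smul, LinearMap.smul_apply, smul_eq_mul]
  have h1 := hsim s x (ρ s⁻¹ w)
  have h2 : ρ s (ρ s⁻¹ w) = w := by
    rw [← Module.End.mul_apply, ← map_mul, mul_inv_cancel, map_one, Module.End.one_apply]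
  rw [h2] at h1
  rw [h1, inv_mul_cancel_left₀ (chi_ne χ s)]

include hsim in
theorem dT_tate {m : ℕ} (f : MultilinearMap k (fun _ : Fin m => V) k) {s : Γ} {c : k}
    (hc : c ^ 2 = χ s ^ m) (hf : ∀ v, f (fun i => ρ s (v i)) = c * f v)
    (v : Fin (m + m) → V × Dual k V) :
    dT (eω ω hs hnd) f (fun l => grp (ρ s) (ρ s⁻¹) (v l)) = dT (eω ω hs hnd) f v := by
  rw [dT_apply, dT_apply]
  have h1 : (fun i : Fin m => (eω ω hs hnd).symm (grp (ρ s) (ρ s⁻¹) (v (Fin.natAdd m i))).2) =
      fun i => (χ s)⁻¹ • ρ s ((eω ω hs hnd).symm (v (Fin.natAdd m i)).2) := by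
    funext i
    exact eω_dual ω hs hnd ρ χ hsim s _
  have h2 := MultilinearMap.map_smul_univ f (fun _ : Fin m => (χ s)⁻¹)
    (fun i => ρ s ((eω ω hs hnd).symm (v (Fin.natAdd m i)).2))
  rw [h1, h2, hf]
  have h3 : (fun i : Fin m => (grp (ρ s) (ρ s⁻¹) (v (Fin.castAdd m i))).1) =
      fun i => ρ s (v (Fin.castAdd m i)).1 := rfl
  rw [h3, hf (fun i => (v (Fin.castAdd m i)).1), Finset.prod_const, Finset.card_univ,
    Fintype.card_fin, smul_eq_mul]
  have h4 : χ s ^ m ≠ 0 := pow_ne_zero _ (chi_ne χ s)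
  have h5 : c * ((χ s)⁻¹ ^ m * c) = 1 := by
    rw [inv_pow]
    field_simp
    exact hc
  linear_combination (f (fun i => (v (Fin.castAdd m i)).1) *
    f (fun i => (eω ω hs hnd).symm (v (Fin.natAdd m i)).2)) * h5

include hs hnd hsim in
/-- The Lie algebra consists of infinitesimal similitudes. -/
theorem mem_gso (X : End k V) (hX : X ∈ LT ρ) : ∃ c : k, X - c • (1 : End k V) ∈ SpL ω := by
  by_cases hV : ∃ x y, ω x y ≠ 0
  · obtain ⟨x, y, hxy⟩ := hV
    have hk : KillsTensor X (dT (eω ω hs hnd) (ωM ω)) := hX.2 _ _ ⟨⊤, inferInstance,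
      fun γ _ v => dT_tate ω hs hnd ρ χ hsim (ωM ω) (c := χ γ) rfl (fun v => hsim γ _ _) v⟩
    have h := kills_dT (eω ω hs hnd) (ωM ω) (X' := (eω ω hs hnd).symm.toLinearMap ∘ₗ
      (-X.dualMap) ∘ₗ (eω ω hs hnd).toLinearMap) (fun x => by simp) hk
    set X' : End k V := (eω ω hs hnd).symm.toLinearMap ∘ₗ
      (-X.dualMap) ∘ₗ (eω ω hs hnd).toLinearMap
    refine ⟨-(LX X' (ωM ω) ![x, y]) / ω x y / 2, fun u w => ?_⟩
    have h1 := h ![u, w] ![x, y]
    rw [LX_ωM, ωM_apply, ωM_apply] at h1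
    simp only [Matrix.cons_val_zero, Matrix.cons_val_one] at h1
    rw [LinearMap.sub_apply, LinearMap.sub_apply, map_sub, map_sub, LinearMap.sub_apply,
      LinearMap.smul_apply, LinearMap.smul_apply, map_smul, map_smul, LinearMap.smul_apply,
      Module.End.one_apply, Module.End.one_apply, smul_eq_mul]
    field_simp
    linear_combination 2 * h1
  · push Not at hV
    refine ⟨0, fun u w => ?_⟩
    rw [hV, hV, add_zero]

include hs hnd hsim in
/-- Infinitesimal isometries in the Lie algebra kill the Tate forms. -/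
theorem so_kills {X : End k V} (hX : X ∈ LT ρ) (hXs : X ∈ SpL ω) {m : ℕ}
    (f : MultilinearMap k (fun _ : Fin m => V) k) {Δ : Subgroup Γ} (hΔ : Δ.FiniteIndex)
    (c : Γ → k) (hc : ∀ s ∈ Δ, c s ^ 2 = χ s ^ m)
    (hf : ∀ s ∈ Δ, ∀ v, f (fun i => ρ s (v i)) = c s * f v) (v : Fin m → V) : LX X f v = 0 := by
  have hk : KillsTensor X (dT (eω ω hs hnd) f) := hX.2 _ _ ⟨Δ, hΔ,
    fun γ hγ v => dT_tate ω hs hnd ρ χ hsim f (hc γ hγ) (hf γ hγ) v⟩
  have h := kills_dT (eω ω hs hnd) f (X' := X) (fun x => by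
    refine LinearMap.ext fun w => ?_
    rw [eω_apply, eω_apply, LinearMap.neg_apply, LinearMap.dualMap_apply]
    have := hXs x w
    linear_combination this) hk
  by_contra h0
  have h1 : f v = 0 := by
    have h2 := h v v
    have h3 : (2 : k) * (LX X f v * f v) = 0 := by linear_combination h2
    exact (mul_eq_zero.1 ((mul_eq_zero.1 h3).resolve_left two_ne_zero)).resolve_left h0
  have h2 : ∀ x, f x = 0 := by
    intro x
    have h3 := h v x
    rw [h1, zero_mul, add_zero] at h3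
    exact (mul_eq_zero.1 h3).resolve_left h0
  apply h0
  unfold LX
  exact Finset.sum_eq_zero fun l _ => h2 _

end rep

section irr

variable {Γ : Type} [Group Γ] (ρ : Representation k Γ V)

/-- If the representation is irreducible, then so is the Lie algebra (and the restrictions to the
subgroups of finite index). -/
theorem irr_of {N : End k V} {r : ℕ} (h : Reg N r) (L : Submodule k (End k V)) (hN : N ∈ L)
    (hAd : ∀ γ, ∀ X ∈ L, AdE (ρ γ) (ρ γ⁻¹) X ∈ L)
    (hirr : ∀ U : Submodule k V, (∀ s, ∀ u ∈ U, ρ s u ∈ U) → U = ⊥ ∨ U = ⊤)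
    (U : Submodule k V) (hU : ∀ X ∈ L, ∀ u ∈ U, X u ∈ U) : U = ⊥ ∨ U = ⊤ := by
  refine hirr U fun s u hu => ?_
  have hUN := h.stable (hU N hN)
  set W : Submodule k V := U.map (ρ s) with hW
  have hWL : ∀ X ∈ L, ∀ w ∈ W, X w ∈ W := by
    rintro X hX w ⟨u, hu, rfl⟩
    refine ⟨AdE (ρ s⁻¹) (ρ s⁻¹⁻¹) X u, hU _ (hAd s⁻¹ X hX) u hu, ?_⟩
    rw [AdE_apply, inv_inv, Module.End.mul_apply, Module.End.mul_apply, ← Module.End.mul_apply,
      ← map_mul, mul_inv_cancel, map_one, Module.End.one_apply]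
  have hWN := h.stable (hWL N hN)
  have hinj : Function.Injective (ρ s) := by
    intro x y hxy
    have h1 := congrArg (ρ s⁻¹) hxy
    rwa [← Module.End.mul_apply, ← Module.End.mul_apply, ← map_mul, inv_mul_cancel, map_one,
      Module.End.one_apply, Module.End.one_apply] at h1
  have hfr : finrank k W = finrank k U := (Submodule.equivMapOfInjective (ρ s) hinj U).finrank_eq.symm
  rw [hfr, ← hUN] at hWN
  rw [← hWN]
  exact ⟨u, hu, rfl⟩

end irr

end Pool.Agent.Y115.EW
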