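import Mathlib
import Pool.Agent.Y115.EW.Gso
import Pool.Agent.Y127.FftS

/-!
# Forms killed by the orthogonal Lie algebra are semi-invariants of the similitudes
-/

set_option autoImplicit false
set_option linter.unusedSectionVars false
set_option linter.unusedVariables false

namespace Pool.Agent.Y115.EW

open Module Pool.Agent.Y114.MU Pool.Agent.Y114.RM Pool.Agent.Y127 Pool.Agent.TH125.Nod

variable {K : Type} [Field K] [CharZero K] {n : ℕ}
  (ω : (Fin n → K) →ₗ[K] (Fin n → K) →ₗ[K] K)

/-- The matrix of the form. -/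
def Qm : Matrix (Fin n) (Fin n) K := Matrix.of fun a b => ω (Pi.single a 1) (Pi.single b 1)

theorem Qm_apply (a b : Fin n) : Qm ω a b = ω (Pi.single a 1) (Pi.single b 1) := rfl

theorem vec_eq (x : Fin n → K) : x = ∑ a, x a • (Pi.single a (1 : K) : Fin n → K) := by
  funext b
  simp [Finset.sum_apply, Pi.single_apply]

theorem Qm_det (hnd : ∀ u, (∀ x, ω x u = 0) → u = 0) : (Qm ω).det ≠ 0 := by
  intro h0
  obtain ⟨v, hv, hv0⟩ := Matrix.exists_mulVec_eq_zero_iff.2 h0
  apply hv
  refine hnd v fun x => ?_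
  have h1 : ∀ a : Fin n, ω (Pi.single a 1) v = 0 := by
    intro a
    have h2 := congrFun hv0 a
    rw [Matrix.mulVec, dotProduct, Pi.zero_apply] at h2
    conv_lhs => rw [vec_eq v]
    rw [map_sum, ← h2]
    refine Finset.sum_congr rfl fun b _ => ?_
    rw [map_smul, smul_eq_mul, mul_comm, Qm_apply]
  rw [vec_eq x, map_sum, LinearMap.sum_apply]
  refine Finset.sum_eq_zero fun a _ => ?_
  rw [map_smul, LinearMap.smul_apply, h1, smul_zero]

theorem forms_semi (hs : ∀ x y, ω x y = ω y x) (hnd : ∀ u, (∀ x, ω x u = 0) → u = 0) {m : ℕ}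
    (f : MultilinearMap K (fun _ : Fin m => Fin n → K) K)
    (hk : ∀ X ∈ SpL ω, ∀ v, LX X f v = 0) {g : End K (Fin n → K)} {ν : K}
    (hg : ∀ x y, ω (g x) (g y) = ν ^ 2 * ω x y) (hdet : LinearMap.det g = ν ^ n)
    (v : Fin m → Fin n → K) : f (fun i => g (v i)) = ν ^ m * f v := by
  classical
  set F : (Fin m → Fin n) → K := fun J => f (fun j => Pi.single (J j) 1) with hF
  have hQR : Qm ω * (Qm ω)⁻¹ = 1 := Matrix.mul_nonsing_inv _ (Qm_det ω hnd).isUnit
  have hinv : Inv (fun _ : Fin n => ()) (Qm ω) (fun _ => (1 : K)) F := by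
    intro u v _ J
    have h1 := hk _ (AA_mem_SpL ω hs (Pi.single v 1) (Pi.single u 1)) (fun j => Pi.single (J j) 1)
    unfold LX at h1
    rw [← h1]
    refine Finset.sum_congr rfl fun j _ => ?_
    have h2 : ∀ (c : K) (a : Fin n), c • F (Function.update J j a) =
        f (Function.update (fun j => (Pi.single (J j) (1 : K) : Fin n → K)) j
          (c • Pi.single a 1)) := by
      intro c a
      rw [MultilinearMap.map_update_smul, hF]
      beta_reduce
      congr 2
      funext i
      by_cases hi : i = j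
      · subst hi
        simp
      · rw [Function.update_of_ne hi, Function.update_of_ne hi]
    rw [AA_apply, MultilinearMap.map_update_sub, ← h2, ← h2, one_mul]
    rfl
  have hfft := fftS (Q := Qm ω) (fun a b => hs _ _) hQR m (Fin m) F (by simp) hinv
  obtain ⟨f0, hf0, f1, hf1, hff⟩ := Submodule.mem_sup.1 hfft
  have hgm : ∀ b, g (Pi.single b 1) = ∑ a, LinearMap.toMatrix' g a b •
      (Pi.single a (1 : K) : Fin n → K) := by
    intro b
    rw [vec_eq (g (Pi.single b 1))]
    refine Finset.sum_congr rfl fun a _ => ?_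
    rw [LinearMap.toMatrix'_apply]
  have hSim : Sim (Qm ω) (LinearMap.toMatrix' g) ν 1 := by
    refine ⟨?_, ?_⟩
    · ext a b
      rw [Matrix.smul_apply, Qm_apply, smul_eq_mul, ← sq, ← hg, hgm, hgm, Matrix.mul_apply]
      simp only [map_sum, LinearMap.sum_apply, map_smul, LinearMap.smul_apply, Matrix.mul_apply,
        Matrix.transpose_apply, smul_eq_mul, Qm_apply, Finset.sum_mul]
      refine Finset.sum_congr rfl fun c _ => ?_
      rw [Finset.mul_sum]
      refine Finset.sum_congr rfl fun d _ => ?_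
      ring
    · rw [LinearMap.det_toMatrix', hdet, one_mul, Fintype.card_fin]
  have hGA : ∀ x, GA (LinearMap.toMatrix' g) F x = ν ^ m * F x := by
    intro x
    rw [← hff, GA_add, EmM_GA hSim hf0, EmM_GA hSim hf1]
    simp [mul_add]
  have hext : f.compLinearMap (fun _ => g) = ν ^ m • f := by
    refine Basis.ext_multilinear (fun _ => Pi.basisFun K (Fin n)) fun x => ?_
    rw [MultilinearMap.compLinearMap_apply, smul_apply, smul_eq_mul]
    simp only [Pi.basisFun_apply]
    have h1 := hGA x
    change _ = ν ^ m * f (fun j => Pi.single (x j) 1) at h1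
    rw [← h1]
    unfold GA
    simp only [hgm]
    rw [MultilinearMap.map_sum]
    refine Finset.sum_congr rfl fun y _ => ?_
    rw [MultilinearMap.map_smul_univ]
  have h2 := congrArg (fun T => T v) hext
  exact h2

end Pool.Agent.Y115.EW
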