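import Mathlib
import Pool.Agent.Y115.EW.Irr
import Pool.Agent.Y115.EW.Rk
import Pool.Agent.Y115.EW.Semi

/-!
# Orthogonal Galois representations with maximally unipotent monodromy
-/

set_option autoImplicit false
set_option linter.unusedSectionVars false
set_option linter.unusedVariables false

namespace Pool.Agent.Y115.EW

open NumberField IsDedekindDomain Polynomial Module TensorProduct Pool.Agent.Y114.TF
  Pool.Agent.Y114.GF Pool.Agent.Y114.MU Pool.Agent.Y114.RM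
open Pool.Agent.W569.FM Pool.Agent.W571.FM Pool.Agent.Y115.R Pool.Agent.Y115.T Pool.Agent.Y115.Chi

section lin

variable {k : Type} [Field k] [CharZero k] {V : Type} [AddCommGroup V] [Module k V]
  [FiniteDimensional k V]

/-- A nilpotent endomorphism with one Jordan block which is in an orthogonal Lie algebra acts on a
space of odd dimension. -/
theorem even_of_reg (ω : V →ₗ[k] V →ₗ[k] k) (hs : ∀ u w, ω u w = ω w u)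
    (hnd : ∀ u, (∀ x, ω x u = 0) → u = 0) {N : End k V} {r : ℕ} (h : Reg N r) (hN : N ∈ SpL ω) :
    Even r := by
  obtain ⟨v, hv⟩ := h.exists_vec
  have hadj : ∀ (a b : ℕ), ω ((N ^ a) v) ((N ^ b) v) = (-1) ^ a * ω v ((N ^ (a + b)) v) :=
    fun a b => form_on (r := r) ω hN a b
  have hne : ω v ((N ^ r) v) ≠ 0 := by
    intro h0
    apply hv
    refine hnd _ fun x => ?_
    obtain ⟨c, rfl⟩ := h.exists_coeff hv x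
    rw [map_sum, LinearMap.sum_apply]
    refine Finset.sum_eq_zero fun i _ => ?_
    rw [map_smul, LinearMap.smul_apply, hadj]
    rcases Nat.eq_zero_or_pos i with h1 | h1
    · rw [h1, zero_add, h0, mul_zero, smul_zero]
    · rw [h.pow_zero_of_lt (show r < i + r by omega), LinearMap.zero_apply, map_zero, mul_zero,
        smul_zero]
  by_contra hodd
  rw [Nat.not_even_iff_odd] at hodd
  have h1 := hadj r 0
  rw [pow_zero, Module.End.one_apply, hs, add_zero, hodd.neg_one_pow] at h1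
  apply hne
  have h2 : (2 : k) * ω v ((N ^ r) v) = 0 := by linear_combination h1
  exact (mul_eq_zero.1 h2).resolve_left two_ne_zero

theorem eigen_of_root [Algebra k ℂ] {g : End k V} {P : ℚ[X]}
    (hP : g.charpoly = P.map (algebraMap ℚ k)) {z : ℂ} (hz : aeval z P = 0) :
    End.HasEigenvalue (g.baseChange ℂ) z := by
  rw [Module.End.hasEigenvalue_iff_isRoot_charpoly, LinearMap.charpoly_baseChange, hP,
    Polynomial.map_map, IsRoot.def, eval_map]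
  rw [aeval_def] at hz
  rw [← hz]
  congr 1
  exact Subsingleton.elim _ _

end lin

variable {F : Type} [Field F] [NumberField F] {n : ℕ} {ℓ : ℕ} [hℓ : Fact ℓ.Prime]

theorem mum_main (ρ : Representation ℚ_[ℓ] Gal(AlgebraicClosure F/F) (Fin n → ℚ_[ℓ]))
    {ω : (Fin n → ℚ_[ℓ]) →ₗ[ℚ_[ℓ]] (Fin n → ℚ_[ℓ]) →ₗ[ℚ_[ℓ]] ℚ_[ℓ]} {w : ℤ}
    (hR : IsOrthogonal ρ ω w) (T : Set ℕ) (hT3 : 3 ≤ T.encard)
    (hT : ∀ p ∈ T, p.Prime ∧ p ≠ ℓ ∧ UnramifiedIn F p)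
    (hgood : ∀ p ∈ T, ∀ v, Above v p → ∃ P, GoodPl ρ w v P) {p₁ : ℕ}
    (hp₁ : p₁.Prime ∧ p₁ ≠ ℓ ∧ UnramifiedIn F p₁) {v₁ : HeightOneSpectrum (𝓞 F)}
    (hv₁ : Above v₁ p₁) (hmum : MumPl ρ v₁)
    (hall : ∀ v, Above v p₁ → MumPl ρ v ∨ ∃ P, GoodPl ρ w v P)
    (hind : 5 ≤ n → ∃ v₀ P₀, GoodPl ρ w v₀ P₀ ∧ IndepRoots 3 P₀ ∧
      ((∃ m, 3 * n ^ 2 + 3 = 5 * (m * (m + 1))) → IndepRoots 4 P₀)) :
    (∀ Δ : Subgroup Gal(AlgebraicClosure F/F), Δ.FiniteIndex →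
      ∀ U : Submodule ℚ_[ℓ] (Fin n → ℚ_[ℓ]), (∀ g ∈ Δ, ∀ x ∈ U, ρ g x ∈ U) → U = ⊥ ∨ U = ⊤) ∧
    (∀ X ∈ SpL ω, X ∈ LT ρ) := by
  classical
  obtain ⟨j, hj⟩ := exists_j ℓ ℚ_[ℓ] ℚ (algebraMap ℚ ℚ_[ℓ]) (algebraMap ℚ ℂ)
  let _ : Algebra ℚ_[ℓ] ℂ := j.toAlgebra
  obtain ⟨Q, σ, hQ, hQv, hσ⟩ := frob_cm v₁
  obtain ⟨hun, τ, hτ, hne, -⟩ := hmum Q ⟨hQ.isPrime, hQv⟩
  unfold OneBlock at hne
  have hvℓ : ¬ Above v₁ ℓ := not_above_of_ne hp₁.1 hℓ.out hp₁.2.1 hv₁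
  obtain ⟨-, hχτ⟩ := char_inertia' (ℓ := ℓ) w hQ.isPrime hQv hvℓ hτ hσ
  -- the dimension is positive
  have hn : 0 < n := by
    rcases Nat.eq_zero_or_pos n with h0 | h0
    · exfalso
      apply hne
      have h1 : finrank ℚ_[ℓ] (Fin n → ℚ_[ℓ]) = 0 := by simp [h0]
      have h2 : Subsingleton (Fin n → ℚ_[ℓ]) := Module.finrank_zero_iff.1 h1
      exact LinearMap.ext fun x => Subsingleton.elim _ _
    · exact h0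
  obtain ⟨r, hr⟩ := Nat.exists_eq_succ_of_ne_zero hn.ne'
  rw [Nat.succ_eq_add_one] at hr
  have hfr : finrank ℚ_[ℓ] (Fin n → ℚ_[ℓ]) = r + 1 := by simp [hr]
  rw [show n - 1 = r by omega] at hne
  -- the monodromy operator
  obtain ⟨m, hm⟩ := hun τ hτ
  have h1 : (ρ τ - 1) ^ (m + 2) = 0 := by rw [pow_add, hm, zero_mul]
  set N : End ℚ_[ℓ] (Fin n → ℚ_[ℓ]) := lgA (m + 2) (ρ τ - 1) 1 with hNdef
  have hN : Reg N r := ⟨hfr, lgA_one_nil m ⟨m, hm⟩, fun h0 => hne ((lgA_one_pow m ⟨m, hm⟩ r).1 h0)⟩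
  have hNs : N ∈ SpL ω := fun x y => Pool.Agent.H204R3.SP.lieT_sp ρ (cyc F ℓ (-(2 * w))) ω
    hR.similitude (lg_mem ρ (cyc F ℓ (-(2 * w))) h1 (hχτ _)) x y
  obtain ⟨p, hp⟩ := even_of_reg ω hR.symmetric hR.nondegenerate hN hNs
  have hp' : r = 2 * p := by omega
  subst hp'
  -- the Lie algebra
  obtain ⟨L, hL, hLie, hAd, hlog⟩ := Pool.Agent.Y41.RM.lieL' ℚ_[ℓ] (Fin n → ℚ_[ℓ]) _ ρ
  have hNL : N ∈ L := hlog τ (m + 2) (by omega) h1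
  have hirr : ∀ U : Submodule ℚ_[ℓ] (Fin n → ℚ_[ℓ]), (∀ s, ∀ u ∈ U, ρ s u ∈ U) →
      U = ⊥ ∨ U = ⊤ := fun U hU =>
    irreducible ρ hR T hT3 hT hgood hp₁ hv₁ hmum hall hn U hU
  have hirrL : ∀ U : Submodule ℚ_[ℓ] (Fin n → ℚ_[ℓ]), (∀ X ∈ L, ∀ u ∈ U, X u ∈ U) →
      U = ⊥ ∨ U = ⊤ := irr_of ρ hN L hNL hAd hirr
  refine ⟨fun Δ hΔ U hU => hirrL U fun X hX u hu => ((hL X).1 hX).1 U ⟨Δ, hΔ, hU⟩ u hu, ?_⟩
  -- the rank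
  have hrank : 2 ≤ p → 3 ≤ finrank ℚ_[ℓ] (cen L N) ∧
      ((∃ m, 3 * (2 * p + 1) ^ 2 + 3 = 5 * (m * (m + 1))) → 4 ≤ finrank ℚ_[ℓ] (cen L N)) := by
    intro hp2
    obtain ⟨v₀, P₀, hg₀, hi3, hi4⟩ := hind (by omega)
    obtain ⟨Q₀, σ₀, hQ₀, hQ₀v, hσ₀⟩ := frob_cm v₀
    have hcp := hg₀.frobenius Q₀ ⟨hQ₀.isPrime, hQ₀v⟩ σ₀ hσ₀
    have hgo : ∀ a, IndepRoots a P₀ → a ≤ finrank ℚ_[ℓ] (cen L N) := by
      rintro a ⟨z, hz, hze⟩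
      exact cen_rank ρ hL hLie σ₀⁻¹ z (fun i => eigen_of_root hcp (hz i)) hze hNL
    exact ⟨hgo 3 hi3, fun h => hgo 4 (hi4 (by rw [hr]; exact h))⟩
  have hcore := core ω hR.symmetric hR.nondegenerate hN hNs L hLie
    (fun X hX => mem_gso ω hR.symmetric hR.nondegenerate ρ (cyc F ℓ (-(2 * w))) hR.similitude X
      ((hL X).1 hX)) hirrL hNL hrank
  exact fun X hX => (hL X).1 (hcore hX)

/-- **Orthogonal motives with maximally unipotent monodromy.** -/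
theorem mum (ρ : Representation ℚ_[ℓ] Gal(AlgebraicClosure F/F) (Fin n → ℚ_[ℓ]))
    {ω : (Fin n → ℚ_[ℓ]) →ₗ[ℚ_[ℓ]] (Fin n → ℚ_[ℓ]) →ₗ[ℚ_[ℓ]] ℚ_[ℓ]} {w : ℤ}
    (hR : IsOrthogonal ρ ω w) (T : Set ℕ) (hT3 : 3 ≤ T.encard)
    (hT : ∀ p ∈ T, p.Prime ∧ p ≠ ℓ ∧ UnramifiedIn F p)
    (hgood : ∀ p ∈ T, ∀ v, Above v p → ∃ P, GoodPl ρ w v P) {p₁ : ℕ}
    (hp₁ : p₁.Prime ∧ p₁ ≠ ℓ ∧ UnramifiedIn F p₁) {v₁ : HeightOneSpectrum (𝓞 F)}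
    (hv₁ : Above v₁ p₁) (hmum : MumPl ρ v₁)
    (hall : ∀ v, Above v p₁ → MumPl ρ v ∨ ∃ P, GoodPl ρ w v P)
    (hind : 5 ≤ n → ∃ v₀ P₀, GoodPl ρ w v₀ P₀ ∧ IndepRoots 3 P₀ ∧
      ((∃ m, 3 * n ^ 2 + 3 = 5 * (m * (m + 1))) → IndepRoots 4 P₀)) :
    (∀ Δ : Subgroup Gal(AlgebraicClosure F/F), Δ.FiniteIndex →
      ∀ U : Submodule ℚ_[ℓ] (Fin n → ℚ_[ℓ]), (∀ g ∈ Δ, ∀ x ∈ U, ρ g x ∈ U) → U = ⊥ ∨ U = ⊤) ∧
    ∀ (m : ℕ) (f : MultilinearMap ℚ_[ℓ] (fun _ : Fin m => Fin n → ℚ_[ℓ]) ℚ_[ℓ]),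
      TateForm ρ w f → ∀ (g : End ℚ_[ℓ] (Fin n → ℚ_[ℓ])) (ν : ℚ_[ℓ]),
        (∀ x y, ω (g x) (g y) = ν ^ 2 * ω x y) → LinearMap.det g = ν ^ n →
        ∀ v, f (fun i => g (v i)) = ν ^ m * f v := by
  obtain ⟨h1, h2⟩ := mum_main ρ hR T hT3 hT hgood hp₁ hv₁ hmum hall hind
  refine ⟨h1, fun m f hf g ν hg hdet v => ?_⟩
  obtain ⟨Δ, hΔ, hfΔ⟩ := hf
  refine forms_semi ω hR.symmetric hR.nondegenerate f (fun X hX v => ?_) hg hdet v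
  refine so_kills ω hR.symmetric hR.nondegenerate ρ (cyc F ℓ (-(2 * w))) hR.similitude (h2 X hX) hX
    f hΔ (fun s => cyc F ℓ (-(m * w)) s) (fun s _ => ?_) (fun s hs v => hfΔ s hs v) v
  -- the characters
  have e1 : ∀ a : ℤ, cyc F ℓ a s =
      (((cyclotomicCharacter (AlgebraicClosure F) ℓ s : ℤ_[ℓ]ˣ) : ℤ_[ℓ]) : ℚ_[ℓ]) ^ a :=
    fun a => coe_zpow_unit _ _
  rw [e1, e1, ← zpow_natCast, ← zpow_natCast, ← zpow_mul, ← zpow_mul]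
  congr 1
  push_cast
  ring

end Pool.Agent.Y115.EW
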